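import Pool.Agent.Q78.UR.Fug
import Pool.Agent.Q78.UR.Sharp2

set_option autoImplicit false

/-! Sequences with Kesten's inequality (relative to a growth rate): averages of such sequences,
and the law of the index with a fugacity. -/

namespace Q78.UG

open Finset Filter Topology MeasureTheory Q78.UR

/-- Kesten's inequality, as long as the terms are not exponentially smaller than `μ ^ n` -/
structure Kz (s N : ℕ) (D θ μ : ℝ) (X : ℕ → ℝ) : Prop where
  nn : ∀ n, 0 ≤ X n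
  kes : ∀ n, N ≤ n → (θ * μ) ^ (n + s) ≤ X (n + s) →
    X (n + s) ^ 2 ≤ X n * X (n + 2 * s) * (1 + D / n)

/-- **averages** -/
theorem mean {s N : ℕ} {D θ : ℝ} (hD : 0 ≤ D) (hθ0 : 0 < θ) (hθ1 : θ < 1) :
    ∃ N' : ℕ, 1 ≤ N' ∧ ∀ (μ : ℝ), 0 < μ → ∀ (Ω : Type) [MeasurableSpace Ω] (ν : Measure Ω)
      [IsProbabilityMeasure ν] (X : Ω → ℕ → ℝ), (∀ n, Integrable (fun ω => X ω n) ν) →
      (∀ ω, Kz s N D θ μ (X ω)) →
      Kz s N' (D + 1) ((1 + θ) / 2) μ (fun n => ∫ ω, X ω n ∂ν) := by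
  obtain ⟨θ', hθ'⟩ : ∃ θ' : ℝ, θ' = (1 + θ) / 2 := ⟨_, rfl⟩
  rw [← hθ']
  have h0' : 0 < θ' := by rw [hθ']; linarith
  have hr1 : θ / θ' < 1 := by rw [div_lt_one h0', hθ']; linarith
  obtain ⟨N1, hN1⟩ := eventually_atTop.1 (exp_err (r := θ / θ') (D := D) (by positivity) hr1 hD s)
  refine ⟨max (max N N1) 1, le_max_right _ _, ?_⟩
  intro μ hμ Ω _ ν _ X hint hX
  have hnn : ∀ n, 0 ≤ ∫ ω, X ω n ∂ν := fun n => integral_nonneg fun ω => (hX ω).nn n
  refine ⟨hnn, fun n hn hbig => ?_⟩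
  have hnN : N ≤ n := ((le_max_left _ _).trans (le_max_left _ _)).trans hn
  have hnN1 : N1 ≤ n := ((le_max_right _ _).trans (le_max_left _ _)).trans hn
  have hn1 : 1 ≤ n := le_trans (le_max_right _ _) hn
  have hn0 : (0 : ℝ) < n := by
    have : 0 < n := by omega
    exact_mod_cast this
  obtain ⟨κ, hκ⟩ : ∃ κ : ℝ, κ = 1 + D / n := ⟨_, rfl⟩
  have hκ0 : 0 < κ := by rw [hκ]; positivity
  obtain ⟨F, hF⟩ : ∃ F : ℕ → ℝ, F = fun n => ∫ ω, X ω n ∂ν := ⟨_, rfl⟩
  have hF' : ∀ n, F n = ∫ ω, X ω n ∂ν := fun n => by rw [hF]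
  have hFn : ∀ n, 0 ≤ F n := fun n => by rw [hF']; exact hnn n
  show (∫ ω, X ω (n + s) ∂ν) ^ 2 ≤ (∫ ω, X ω n ∂ν) * (∫ ω, X ω (n + 2 * s) ∂ν) * (1 + (D + 1) / n)
  have hbig' : (θ' * μ) ^ (n + s) ≤ F (n + s) := by rw [hF']; exact hbig
  rw [← hF', ← hF', ← hF']
  have key : ∀ t : ℝ, 0 < t → F (n + s) ≤ (θ * μ) ^ (n + s) +
      (κ * F n * t + F (n + 2 * s) / t) / 2 := by
    intro t ht
    have hpt : ∀ ω, X ω (n + s) ≤ (θ * μ) ^ (n + s) +
        (κ / 2 * t * X ω n + 1 / (2 * t) * X ω (n + 2 * s)) := by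
      intro ω
      have hc1 := (hX ω).nn (n + s)
      have hc0 := (hX ω).nn n
      have hc2 := (hX ω).nn (n + 2 * s)
      have hθμ : 0 ≤ (θ * μ) ^ (n + s) := by positivity
      by_cases hc : (θ * μ) ^ (n + s) ≤ X ω (n + s)
      · have h1 := (hX ω).kes n hnN hc
        have h2 := lin_of_sq (v := X ω (n + s)) (p := κ * X ω n) (q := X ω (n + 2 * s)) (t := t)
          hc1 (by positivity) hc2 ht (by rw [hκ]; linarith)
        have e : (κ * X ω n * t + X ω (n + 2 * s) / t) / 2 =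
            κ / 2 * t * X ω n + 1 / (2 * t) * X ω (n + 2 * s) := by
          field_simp
        linarith
      · push Not at hc
        have h3 : 0 ≤ κ / 2 * t * X ω n + 1 / (2 * t) * X ω (n + 2 * s) := by positivity
        linarith
    have i0 := hint n
    have i2 := hint (n + 2 * s)
    have i3 : Integrable (fun ω => κ / 2 * t * X ω n + 1 / (2 * t) * X ω (n + 2 * s)) ν :=
      (i0.const_mul _).add (i2.const_mul _)
    have h4 : F (n + s) ≤ ∫ ω, ((θ * μ) ^ (n + s) +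
        (κ / 2 * t * X ω n + 1 / (2 * t) * X ω (n + 2 * s))) ∂ν := by
      rw [hF']
      exact integral_mono (hint _) ((integrable_const _).add i3) hpt
    rw [integral_add (integrable_const _) i3, integral_const, probReal_univ, one_smul,
      integral_add (i0.const_mul _) (i2.const_mul _), integral_const_mul,
      integral_const_mul, ← hF', ← hF'] at h4
    refine h4.trans (le_of_eq ?_)
    field_simp
  obtain ⟨η, hη⟩ : ∃ η, η = (θ / θ') ^ (n + s) := ⟨_, rfl⟩
  obtain ⟨e1, e2⟩ := hN1 n hnN1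
  rw [← hη] at e1 e2
  have hη0 : 0 < η := by rw [hη]; positivity
  have hFp : 0 < F (n + s) := lt_of_lt_of_le (by positivity) hbig'
  have hsmall : (θ * μ) ^ (n + s) ≤ η * F (n + s) := by
    have : (θ * μ) ^ (n + s) = η * (θ' * μ) ^ (n + s) := by
      rw [hη, ← mul_pow]
      congr 1
      field_simp
    rw [this]
    exact mul_le_mul_of_nonneg_left hbig' hη0.le
  have hsq := sq_of_lin (v := (1 - η) * F (n + s)) (p := κ * F n)
    (q := F (n + 2 * s)) (mul_pos (by linarith) hFp)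
    (mul_nonneg hκ0.le (hFn n)) (hFn _) (fun t ht => by
      have := key t ht
      linarith)
  have h6 : (1 - η) ^ 2 * F (n + s) ^ 2 ≤ (1 - η) ^ 2 *
      (F n * F (n + 2 * s) * (1 + (D + 1) / n)) := by
    calc (1 - η) ^ 2 * F (n + s) ^ 2 = ((1 - η) * F (n + s)) ^ 2 := by ring
      _ ≤ κ * F n * F (n + 2 * s) := hsq
      _ = (F n * F (n + 2 * s)) * κ := by ring
      _ ≤ (F n * F (n + 2 * s)) * ((1 + (D + 1) / n) * (1 - η) ^ 2) := by
          refine mul_le_mul_of_nonneg_left ?_ (mul_nonneg (hFn n) (hFn _))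
          rw [hκ]
          exact e2
      _ = _ := by ring
  have h7 : 0 < (1 - η) ^ 2 := by
    have : 0 < 1 - η := by linarith
    positivity
  exact le_of_mul_le_mul_left h6 h7

/-- **the largest atom and the total variation, for families** -/
theorem sharpF (s : ℕ) (hs : 1 ≤ s) (D θ : ℝ) (hD : 0 ≤ D) (hθ0 : 0 < θ) (hθ1 : θ < 1) :
    ∃ (C : ℝ) (N0 : ℕ), 0 < C ∧ 3 ≤ N0 ∧
      ∀ (N : ℕ) (x : ℕ → ℝ), Cx s N D θ 0 x → (∀ M, ∑ n ∈ range M, x n ≤ 1) →
      ∀ l, N0 ≤ l → 2 * N ≤ l → x l ≤ C / √(l : ℝ) ∧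
        ∀ y : ℕ → ℕ → ℝ, (∀ i, Cx s N D θ 0 (y i)) → (∀ i n, y i n ≤ x n) →
        ∀ k, ∑ i ∈ range k, |y i (l + i + s) - y i (l + i)| ≤ C / √(l : ℝ) := by
  obtain ⟨C, N0, hC, hN0, h⟩ := local_avg s hs D θ hD hθ0 hθ1
  obtain ⟨C', N0', hC', hN0', h'⟩ := sharp s hs D θ hD hθ0 hθ1
  have hsR : (1 : ℝ) ≤ s := by exact_mod_cast hs
  refine ⟨max C' (C * (5 * s) + 2), max N0' (max N0 (64 * s ^ 2 + 4)), by positivity,
    hN0'.trans (le_max_left _ _), ?_⟩
  intro N x hx hsum l hl hlN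
  have hlN0' : N0' ≤ l := le_trans (le_max_left _ _) hl
  have hl' : max N0 (64 * s ^ 2 + 4) ≤ l := le_trans (le_max_right _ _) hl
  have hlN0 : N0 ≤ l := le_trans (le_max_left _ _) hl'
  have hl64 : 64 * s ^ 2 + 4 ≤ l := le_trans (le_max_right _ _) hl'
  have hl0 : (0 : ℝ) < l := by
    have : 0 < l := by omega
    exact_mod_cast this
  have hl1 : (1 : ℝ) ≤ l := by
    have : 1 ≤ l := by omega
    exact_mod_cast this
  obtain ⟨u, hu⟩ : ∃ u, u = √(l : ℝ) := ⟨_, rfl⟩
  have hu2 : u * u = l := by rw [hu]; exact Real.mul_self_sqrt (Nat.cast_nonneg _)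
  have hu1 : 1 ≤ u := by rw [hu, Real.one_le_sqrt]; exact hl1
  have hu0 : 0 < u := by linarith
  rw [← hu]
  constructor
  · have h1 := (h' N x hx hsum l hlN0' hlN).1
    rw [← hu] at h1
    exact h1.trans (div_le_div_of_nonneg_right (le_max_left _ _) hu0.le)
  · intro y hy hyx k
    refine le_trans ?_ (div_le_div_of_nonneg_right (le_max_right C' (C * (5 * s) + 2)) hu0.le)
    have hpt : ∀ n ∈ Finset.Ico l (l + k), |y (n - l) (n + s) - y (n - l) n| ≤
        C * (1 / (n : ℝ) * ∑ m ∈ Win s n, x m) + 1 / (n : ℝ) ^ 2 := by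
      intro n hn
      rw [Finset.mem_Ico] at hn
      have hn0 : (0 : ℝ) < n := by
        have : 0 < n := by omega
        exact_mod_cast this
      have hS0 : 0 ≤ ∑ m ∈ Win s n, x m := sum_nonneg fun m _ => hx.nn m
      have h2n : 0 < 1 / (n : ℝ) ^ 2 := by positivity
      have hSy : ∑ m ∈ Win s n, y (n - l) m ≤ ∑ m ∈ Win s n, x m :=
        sum_le_sum fun m _ => hyx _ m
      by_cases hc : 1 / (n : ℝ) ^ 2 ≤ y (n - l) n ∨ 1 / (n : ℝ) ^ 2 ≤ y (n - l) (n + s)
      · have h1 := (h N (y (n - l)) (hy _) n (by omega) (by omega) hc).2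
        have h1' := h1.trans (mul_le_mul_of_nonneg_left hSy hC.le)
        have h2 : |y (n - l) (n + s) - y (n - l) n| ≤
            C * (1 / (n : ℝ) * ∑ m ∈ Win s n, x m) := by
          have e : C * (1 / (n : ℝ) * ∑ m ∈ Win s n, x m) = (C * ∑ m ∈ Win s n, x m) / n := by
            field_simp
          rw [e, le_div_iff₀ hn0]
          linarith
        linarith
      · push Not at hc
        have h1 : |y (n - l) (n + s) - y (n - l) n| ≤ 1 / (n : ℝ) ^ 2 := by
          have := (hy (n - l)).nn n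
          have := (hy (n - l)).nn (n + s)
          rw [abs_le]
          constructor <;> linarith [hc.1, hc.2]
        have h2 : 0 ≤ C * (1 / (n : ℝ) * ∑ m ∈ Win s n, x m) := by positivity
        linarith
    have e0 : ∑ i ∈ range k, |y i (l + i + s) - y i (l + i)| =
        ∑ n ∈ Finset.Ico l (l + k), |y (n - l) (n + s) - y (n - l) n| := by
      rw [Finset.sum_Ico_eq_sum_range, Nat.add_sub_cancel_left]
      refine sum_congr rfl fun i _ => ?_
      rw [Nat.add_sub_cancel_left]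
    rw [e0]
    refine (sum_le_sum hpt).trans ?_
    rw [sum_add_distrib, ← mul_sum]
    obtain ⟨M, hM⟩ : ∃ M, ∀ n ∈ Finset.Ico l (l + k), Win s n ⊆ range M := by
      obtain ⟨M, hM⟩ := ((Finset.Ico l (l + k)).biUnion (Win s)).exists_nat_subset_range
      exact ⟨M, fun n hn => (Finset.subset_biUnion_of_mem (Win s) hn).trans hM⟩
    have h1 : ∑ n ∈ Finset.Ico l (l + k), (1 / (n : ℝ) * ∑ m ∈ Win s n, x m) ≤ 5 * s / u := by
      have e1 : ∀ n ∈ Finset.Ico l (l + k), (1 / (n : ℝ) * ∑ m ∈ Win s n, x m) =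
          ∑ m ∈ range M, x m * (if m ∈ Win s n then 1 / (n : ℝ) else 0) := by
        intro n hn
        rw [mul_sum, ← sum_subset (hM n hn) (fun m _ hm => by rw [if_neg hm, mul_zero])]
        refine sum_congr rfl fun m hm => ?_
        rw [if_pos hm]
        ring
      rw [sum_congr rfl e1, sum_comm]
      have e2 : ∀ m ∈ range M, ∑ n ∈ Finset.Ico l (l + k),
          x m * (if m ∈ Win s n then 1 / (n : ℝ) else 0) ≤ x m * (5 * s / u) := by
        intro m _
        rw [← mul_sum, ← sum_filter]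
        refine mul_le_mul_of_nonneg_left ?_ (hx.nn m)
        rw [hu]
        exact inner_sum hs (by omega) (by omega)
      refine (sum_le_sum e2).trans ?_
      rw [← sum_mul]
      have : 0 ≤ 5 * (s : ℝ) / u := by positivity
      nlinarith [hsum M]
    have h2 : ∑ n ∈ Finset.Ico l (l + k), 1 / (n : ℝ) ^ 2 ≤ 2 / u := by
      rw [Finset.sum_Ico_eq_sum_range, Nat.add_sub_cancel_left]
      refine (sum_inv_sq (show 2 ≤ l by omega) k).trans ?_
      have hl4 : (4 : ℝ) ≤ l := by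
        have : 4 ≤ l := by omega
        exact_mod_cast this
      have h3 : 0 ≤ 1 / ((l : ℝ) + k - 1) := by
        have : (0 : ℝ) ≤ k := Nat.cast_nonneg _
        exact one_div_nonneg.2 (by linarith)
      have h4 : 1 / ((l : ℝ) - 1) ≤ 2 / u := by
        rw [div_le_div_iff₀ (by linarith) hu0]
        nlinarith
      linarith
    have h3 := mul_le_mul_of_nonneg_left h1 hC.le
    have e3 : (C * (5 * s) + 2) / u = C * (5 * s / u) + 2 / u := by ring
    rw [e3]
    linarith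

/-- tilting and normalising -/
theorem tilt {s N : ℕ} {D r μ x T : ℝ} {X : ℕ → ℝ} (hX : Kz s N D (r ^ 4) μ X) (hr0 : 0 < r)
    (hμ : 0 < μ) (hx0 : 0 < x) (hx : x * μ * r ≤ 1) (hT : 0 < T) {M : ℕ}
    (hM : ∀ m, M ≤ m → r ^ (2 * m) ≤ T) (hsum : ∀ m, X m * x ^ m ≤ T) :
    Cx s (max N M) D r 0 (fun m => X m * x ^ m / T) := by
  refine ⟨fun m => ?_, fun m _ => ?_, fun m hm hbig => ?_⟩
  · have := hX.nn m
    positivity
  · rw [zero_mul, Real.exp_zero, div_le_one hT]
    exact hsum m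
  · have hmN : N ≤ m := le_trans (le_max_left _ _) hm
    have hmM : M ≤ m := le_trans (le_max_right _ _) hm
    have h1 : (r ^ 4 * μ) ^ (m + s) ≤ X (m + s) := by
      have h2 : r ^ (m + s) * T ≤ X (m + s) * x ^ (m + s) := by
        rwa [le_div_iff₀ hT] at hbig
      have h3 : (r ^ 4 * μ) ^ (m + s) =
          r ^ (m + s) * r ^ (2 * (m + s)) * (r * μ) ^ (m + s) := by
        rw [mul_pow, mul_pow]; ring
      rw [h3]
      calc r ^ (m + s) * r ^ (2 * (m + s)) * (r * μ) ^ (m + s)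
          ≤ r ^ (m + s) * T * (r * μ) ^ (m + s) := by
            have := hM (m + s) (by omega)
            gcongr
        _ ≤ X (m + s) * x ^ (m + s) * (r * μ) ^ (m + s) :=
            mul_le_mul_of_nonneg_right h2 (by positivity)
        _ = X (m + s) * (x * μ * r) ^ (m + s) := by
            rw [mul_pow, mul_pow, mul_pow]; ring
        _ ≤ X (m + s) * 1 := by
            refine mul_le_mul_of_nonneg_left ?_ (hX.nn _)
            exact pow_le_one₀ (by positivity) hx
        _ = X (m + s) := mul_one _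
    have h4 := hX.kes m hmN h1
    have h5 : (x ^ (m + s)) ^ 2 = x ^ m * x ^ (m + 2 * s) := by
      rw [← pow_mul, ← pow_add]
      congr 1
      ring
    show (X (m + s) * x ^ (m + s) / T) ^ 2 ≤
      X m * x ^ m / T * (X (m + 2 * s) * x ^ (m + 2 * s) / T) * (1 + D / m)
    calc (X (m + s) * x ^ (m + s) / T) ^ 2 = X (m + s) ^ 2 * ((x ^ (m + s)) ^ 2 / T ^ 2) := by
          field_simp
      _ ≤ X m * X (m + 2 * s) * (1 + D / m) * ((x ^ (m + s)) ^ 2 / T ^ 2) :=
          mul_le_mul_of_nonneg_right h4 (by positivity)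
      _ = _ := by
          rw [h5]
          field_simp

/-- **the law of the index with a fugacity** -/
theorem fugA (s N : ℕ) (hs : 1 ≤ s) (D θ : ℝ) (hD : 0 ≤ D) (hθ0 : 0 < θ) (hθ1 : θ < 1) :
    ∃ (C κ δ : ℝ), 0 < C ∧ 1 < κ ∧ 0 < δ ∧
    ∀ (μ : ℝ), 0 < μ → ∀ X : ℕ → ℝ, Kz s N D θ μ X →
      ∀ (x T : ℝ), 0 < x → x * μ ≤ κ → 0 < T → (∀ M, ∑ m ∈ range M, X m * x ^ m ≤ T) →
      ∀ m : ℕ, C * (1 + max 0 (Real.log (1 / T))) ≤ m →
        X m * x ^ m / T ≤ C / √(m : ℝ) ∧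
        (∀ Y : ℕ → ℕ → ℝ, (∀ i, Kz s N D θ μ (Y i)) → (∀ i n, Y i n ≤ X n) →
          ∀ k, ∑ i ∈ range k, |Y i (m + i + s) * x ^ (m + i + s) / T -
          Y i (m + i) * x ^ (m + i) / T| ≤ C / √(m : ℝ)) ∧
        (Real.exp (-δ * m) ≤ X m * x ^ m / T →
          |X (m + s) * x ^ (m + s) / (X m * x ^ m) - 1| ≤
            C * √((1 + Real.log (1 / (X m * x ^ m / T))) / m) ∧
          ∀ Y : ℕ → ℝ, Kz s N D θ μ Y → (∀ n, Y n ≤ X n) →
            |Y (m + s) / X (m + s) - Y m / X m| ≤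
              C * √((1 + Real.log (1 / (X m * x ^ m / T))) / m)) := by
  obtain ⟨r, hr⟩ : ∃ r, r = √(√θ) := ⟨_, rfl⟩
  have hr0 : 0 < r := by rw [hr]; exact Real.sqrt_pos.2 (Real.sqrt_pos.2 hθ0)
  have hr4 : r ^ 4 = θ := by
    have h1 : r ^ 2 = √θ := by rw [hr]; exact Real.sq_sqrt (Real.sqrt_nonneg _)
    rw [show r ^ 4 = (r ^ 2) ^ 2 by ring, h1, Real.sq_sqrt hθ0.le]
  have hr1 : r < 1 := by
    by_contra hc
    push Not at hc
    have : (1 : ℝ) ≤ r ^ 4 := one_le_pow₀ hc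
    rw [hr4] at this
    linarith
  have hlr : 0 < Real.log (1 / r) := Real.log_pos (by rw [lt_div_iff₀ hr0]; linarith)
  obtain ⟨C1, N1, hC1, hN1, h1⟩ := sharpF s hs D r hD hr0 hr1
  obtain ⟨C3, δ3, N3, hC3, hδ3, hN3, h3⟩ := nested1 s hs D r hD hr0 hr1
  obtain ⟨N4, hN4⟩ := eventually_atTop.1 (log_lin hδ3)
  obtain ⟨B, hB⟩ : ∃ B : ℝ, B = 2 * N + 2 / Real.log (1 / r) + 2 + N1 + N3 + N4 := ⟨_, rfl⟩
  refine ⟨max B (max C1 C3), 1 / r, δ3 / 2, ?_, by rw [lt_div_iff₀ hr0]; linarith,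
    by linarith, ?_⟩
  · exact lt_of_lt_of_le hC1 ((le_max_left _ _).trans (le_max_right _ _))
  intro μ hμ X hX x T hx hxκ hT hsum m hm
  have hc1 : C1 ≤ max B (max C1 C3) := (le_max_left _ _).trans (le_max_right _ _)
  have hc3 : C3 ≤ max B (max C1 C3) := (le_max_right _ _).trans (le_max_right _ _)
  have hc0 : B ≤ max B (max C1 C3) := le_max_left _ _
  have hL0 : 0 ≤ max 0 (Real.log (1 / T)) := le_max_left _ _
  obtain ⟨L, hL⟩ : ∃ L, L = max 0 (Real.log (1 / T)) := ⟨_, rfl⟩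
  rw [← hL] at hm hL0
  have hmB : B * (1 + L) ≤ m := (mul_le_mul_of_nonneg_right hc0 (by linarith)).trans hm
  obtain ⟨M, hM⟩ : ∃ M : ℕ, M = ⌈L / Real.log (1 / r)⌉₊ := ⟨_, rfl⟩
  have hMle : (M : ℝ) ≤ L / Real.log (1 / r) + 1 := by
    rw [hM]; exact (Nat.ceil_lt_add_one (by positivity)).le
  have hi0 : 0 ≤ 1 / Real.log (1 / r) := by positivity
  have e2 : 2 / Real.log (1 / r) = 2 * (1 / Real.log (1 / r)) := by ring
  have e3 : L / Real.log (1 / r) = L * (1 / Real.log (1 / r)) := by ring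
  obtain ⟨q, hq⟩ : ∃ q, q = 1 / Real.log (1 / r) := ⟨_, rfl⟩
  have hBm : 2 * (N : ℝ) + 2 * M + N1 + N3 + N4 ≤ m := by
    refine le_trans ?_ hmB
    rw [hB, e2]
    rw [e3] at hMle
    rw [← hq] at hMle hi0 ⊢
    have h5 : 0 ≤ (2 * (N : ℝ) + 2 + N1 + N3 + N4) * L := by positivity
    have h6 : 0 ≤ q * L := by positivity
    nlinarith
  have hBm' : 2 * N + 2 * M + N1 + N3 + N4 ≤ m := by exact_mod_cast hBm
  have hkey := nat_index hr0 hr1 hT
  rw [← hL, ← hM] at hkey
  have hlamr : x * μ * r ≤ 1 := by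
    rw [le_div_iff₀ hr0] at hxκ
    exact hxκ
  have hle : ∀ k, X k * x ^ k ≤ T := by
    intro k
    refine le_trans ?_ (hsum (k + 1))
    refine single_le_sum (f := fun m => X m * x ^ m) (fun i _ => ?_)
      (mem_range.2 (Nat.lt_succ_self k))
    exact mul_nonneg (hX.nn i) (by positivity)
  have hmk : ∀ Y : ℕ → ℝ, Kz s N D θ μ Y → (∀ n, Y n ≤ X n) →
      Cx s (max N M) D r 0 (fun k => Y k * x ^ k / T) := by
    intro Y hY hsub
    exact tilt (by rw [hr4]; exact hY) hr0 hμ hx hlamr hT hkey (fun k =>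
      (mul_le_mul_of_nonneg_right (hsub k) (by positivity)).trans (hle k))
  have hPx := hmk X hX (fun _ => le_rfl)
  have h2N : 2 * max N M ≤ m := by
    rcases le_total N M with h | h
    · rw [max_eq_right h]; omega
    · rw [max_eq_left h]; omega
  have hsq : 0 ≤ 1 / √(m : ℝ) := by positivity
  have hsumP : ∀ Q, ∑ n ∈ range Q, X n * x ^ n / T ≤ 1 := by
    intro Q
    rw [← sum_div, div_le_one hT]
    exact hsum Q
  have hmain := h1 _ _ hPx hsumP m (by omega) h2N
  refine ⟨?_, ?_, ?_⟩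
  · refine hmain.1.trans ?_
    rw [div_eq_mul_one_div, div_eq_mul_one_div (max _ _)]
    exact mul_le_mul_of_nonneg_right hc1 hsq
  · intro Y hY hYX k
    have h := hmain.2 (fun i k => Y i k * x ^ k / T) (fun i => hmk (Y i) (hY i) (hYX i))
      (fun i n => div_le_div_of_nonneg_right
        (mul_le_mul_of_nonneg_right (hYX i n) (by positivity)) hT.le) k
    refine h.trans ?_
    rw [div_eq_mul_one_div, div_eq_mul_one_div (max _ _)]
    exact mul_le_mul_of_nonneg_right hc1 hsq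
  · intro hexp
    have hm0 : (0 : ℝ) < m := by
      have : 0 < m := by omega
      exact_mod_cast this
    obtain ⟨p, hp⟩ : ∃ p, p = X m * x ^ m / T := ⟨_, rfl⟩
    rw [← hp] at hexp ⊢
    have hp0 : 0 < p := lt_of_lt_of_le (Real.exp_pos _) hexp
    have hp1 : p ≤ 1 := by rw [hp, div_le_one hT]; exact hle m
    have hlp : 0 ≤ Real.log (1 / p) := Real.log_nonneg (by rw [le_div_iff₀ hp0]; linarith)
    have hlp2 : Real.log (1 / p) ≤ δ3 / 2 * m := by
      rw [one_div, Real.log_inv]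
      have := Real.log_le_log (Real.exp_pos _) hexp
      rw [Real.log_exp] at this
      linarith
    have h5 := hN4 m (by omega)
    have hlogm : 0 ≤ Real.log (m : ℝ) := Real.log_nonneg (by
      have : 1 ≤ m := by omega
      exact_mod_cast this)
    have hexpa : Real.exp (-(1 + Real.log (1 / p))) ≤ p := by
      rw [neg_add, Real.exp_add, one_div, Real.log_inv, neg_neg, Real.exp_log hp0]
      have : Real.exp (-1) ≤ 1 := Real.exp_le_one_iff.2 (by norm_num)
      nlinarith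
    have hsq' : 0 ≤ √((1 + Real.log (1 / p)) / m) := Real.sqrt_nonneg _
    have happ : ∀ Y : ℕ → ℝ, Kz s N D θ μ Y → (∀ n, Y n ≤ X n) → _ := fun Y hY hsub =>
        h3 _ _ _ hPx (hmk Y hY hsub) (fun k => div_le_div_of_nonneg_right
          (mul_le_mul_of_nonneg_right (hsub k) (by positivity)) hT.le) m (by omega)
          h2N (1 + Real.log (1 / p)) (by linarith) (by linarith) (by rw [← hp]; exact hexpa)
    refine ⟨?_, fun Y hY hsub => ?_⟩
    · have h := (happ X hX (fun _ => le_rfl)).1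
      have e : X (m + s) * x ^ (m + s) / T / (X m * x ^ m / T) =
          X (m + s) * x ^ (m + s) / (X m * x ^ m) := by
        rw [div_div_div_cancel_right₀ hT.ne']
      rw [e] at h
      exact h.trans (mul_le_mul_of_nonneg_right hc3 hsq')
    · have h := (happ Y hY hsub).2
      have e : ∀ k, Y k * x ^ k / T / (X k * x ^ k / T) = Y k / X k := by
        intro k
        rw [div_div_div_cancel_right₀ hT.ne', mul_div_mul_right _ _ (by positivity)]
      rw [e, e] at h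
      exact h.trans (mul_le_mul_of_nonneg_right hc3 hsq')

end Q78.UG
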