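import Pool.Agent.Q78.UG.Abs

set_option autoImplicit false

/-! The law of the index for sequences with Kesten's inequality and a general weight of the index. -/

namespace Q78.UG

open Finset Filter Topology MeasureTheory Q78.UR

/-- weights of the index: at most `ρ ^ n`, approximately logarithmically convex -/
structure Wq (s : ℕ) (c ρ : ℝ) (q : ℕ → ℝ) : Prop where
  nn : ∀ n, 0 ≤ q n
  le : ∀ n, q n ≤ ρ ^ n
  cx : ∀ n, 1 ≤ n → q (n + s) ^ 2 ≤ q n * q (n + 2 * s) * (1 + c / n)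

/-- weighting and normalising -/
theorem tiltQ {s N : ℕ} {D r μ c ρ T : ℝ} {X q : ℕ → ℝ} (hX : Kz s N D (r ^ 4) μ X) (hr0 : 0 < r)
    (hD : 0 ≤ D) (hc : 0 ≤ c) (hμ : 0 < μ) (hρ0 : 0 < ρ) (hq : Wq s c ρ q) (hx : ρ * μ * r ≤ 1)
    (hT : 0 < T) {M : ℕ} (hM : ∀ m, M ≤ m → r ^ (2 * m) ≤ T) (hsum : ∀ m, X m * q m ≤ T) :
    Cx s (max (max N 1) M) (D + c + D * c) r 0 (fun m => X m * q m / T) := by
  refine ⟨fun m => ?_, fun m _ => ?_, fun m hm hbig => ?_⟩
  · have := hX.nn m
    have := hq.nn m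
    positivity
  · rw [zero_mul, Real.exp_zero, div_le_one hT]
    exact hsum m
  · have hmN : N ≤ m := ((le_max_left _ _).trans (le_max_left _ _)).trans hm
    have hm1 : 1 ≤ m := ((le_max_right _ _).trans (le_max_left _ _)).trans hm
    have hmM : M ≤ m := le_trans (le_max_right _ _) hm
    have hmR : (1 : ℝ) ≤ m := by exact_mod_cast hm1
    have h1 : (r ^ 4 * μ) ^ (m + s) ≤ X (m + s) := by
      have h2 : r ^ (m + s) * T ≤ X (m + s) * q (m + s) := by
        rwa [le_div_iff₀ hT] at hbig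
      have h3 : (r ^ 4 * μ) ^ (m + s) =
          r ^ (m + s) * r ^ (2 * (m + s)) * (r * μ) ^ (m + s) := by
        rw [mul_pow, mul_pow]; ring
      rw [h3]
      calc r ^ (m + s) * r ^ (2 * (m + s)) * (r * μ) ^ (m + s)
          ≤ r ^ (m + s) * T * (r * μ) ^ (m + s) := by
            have := hM (m + s) (by omega)
            gcongr
        _ ≤ X (m + s) * q (m + s) * (r * μ) ^ (m + s) :=
            mul_le_mul_of_nonneg_right h2 (by positivity)
        _ ≤ X (m + s) * ρ ^ (m + s) * (r * μ) ^ (m + s) :=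
            mul_le_mul_of_nonneg_right (mul_le_mul_of_nonneg_left (hq.le _) (hX.nn _))
              (by positivity)
        _ = X (m + s) * (ρ * μ * r) ^ (m + s) := by
            rw [mul_pow, mul_pow, mul_pow]; ring
        _ ≤ X (m + s) * 1 := by
            refine mul_le_mul_of_nonneg_left ?_ (hX.nn _)
            exact pow_le_one₀ (by positivity) hx
        _ = X (m + s) := mul_one _
    have h4 := hX.kes m hmN h1
    have h5 := hq.cx m hm1
    have h6 : (1 + D / m) * (1 + c / m) ≤ 1 + (D + c + D * c) / m := by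
      have h7 : D / m * (c / m) ≤ D * c / m := by
        rw [div_mul_div_comm]
        refine div_le_div_of_nonneg_left (by positivity) (by linarith) ?_
        nlinarith
      have e : 1 + (D + c + D * c) / (m : ℝ) = 1 + D / m + c / m + D * c / m := by ring
      rw [e]
      nlinarith
    have hX0 := hX.nn m
    have hX2 := hX.nn (m + 2 * s)
    have hq0 := hq.nn m
    have hq2 := hq.nn (m + 2 * s)
    show (X (m + s) * q (m + s) / T) ^ 2 ≤
      X m * q m / T * (X (m + 2 * s) * q (m + 2 * s) / T) * (1 + (D + c + D * c) / m)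
    calc (X (m + s) * q (m + s) / T) ^ 2 = (X (m + s) ^ 2 * q (m + s) ^ 2) * (1 / T ^ 2) := by
          field_simp
      _ ≤ ((X m * X (m + 2 * s) * (1 + D / m)) * (q m * q (m + 2 * s) * (1 + c / m))) *
          (1 / T ^ 2) := by
          refine mul_le_mul_of_nonneg_right ?_ (by positivity)
          refine mul_le_mul h4 h5 (by positivity) ?_
          have : 0 ≤ D / m := by positivity
          positivity
      _ = (X m * X (m + 2 * s) * (q m * q (m + 2 * s))) * ((1 + D / m) * (1 + c / m)) *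
          (1 / T ^ 2) := by ring
      _ ≤ (X m * X (m + 2 * s) * (q m * q (m + 2 * s))) * (1 + (D + c + D * c) / m) *
          (1 / T ^ 2) := by
          refine mul_le_mul_of_nonneg_right ?_ (by positivity)
          exact mul_le_mul_of_nonneg_left h6 (by positivity)
      _ = _ := by ring

/-- **the law of the index with a general weight** -/
theorem fugQ (s N : ℕ) (hs : 1 ≤ s) (D c θ : ℝ) (hD : 0 ≤ D) (hc : 0 ≤ c) (hθ0 : 0 < θ)
    (hθ1 : θ < 1) :
    ∃ (C κ δ : ℝ), 0 < C ∧ 1 < κ ∧ 0 < δ ∧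
    ∀ (μ : ℝ), 0 < μ → ∀ X : ℕ → ℝ, Kz s N D θ μ X →
      ∀ q : ℕ → ℝ, Wq s c (κ / μ) q →
      ∀ T : ℝ, 0 < T → (∀ M, ∑ m ∈ range M, X m * q m ≤ T) →
      ∀ m : ℕ, C * (1 + max 0 (Real.log (1 / T))) ≤ m →
        X m * q m / T ≤ C / √(m : ℝ) ∧
        (∀ Y : ℕ → ℕ → ℝ, (∀ i, Kz s N D θ μ (Y i)) → (∀ i n, Y i n ≤ X n) →
          ∀ k, ∑ i ∈ range k, |Y i (m + i + s) * q (m + i + s) / T -
          Y i (m + i) * q (m + i) / T| ≤ C / √(m : ℝ)) ∧
        (Real.exp (-δ * m) ≤ X m * q m / T →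
          |X (m + s) * q (m + s) / (X m * q m) - 1| ≤
            C * √((1 + Real.log (1 / (X m * q m / T))) / m) ∧
          ∀ Y : ℕ → ℝ, Kz s N D θ μ Y → (∀ n, Y n ≤ X n) →
            |Y (m + s) / X (m + s) - Y m / X m| ≤
              C * √((1 + Real.log (1 / (X m * q m / T))) / m)) := by
  obtain ⟨r, hr⟩ : ∃ r, r = √(√θ) := ⟨_, rfl⟩
  have hr0 : 0 < r := by rw [hr]; exact Real.sqrt_pos.2 (Real.sqrt_pos.2 hθ0)
  have hr4 : r ^ 4 = θ := by
    have h1 : r ^ 2 = √θ := by rw [hr]; exact Real.sq_sqrt (Real.sqrt_nonneg _)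
    rw [show r ^ 4 = (r ^ 2) ^ 2 by ring, h1, Real.sq_sqrt hθ0.le]
  have hr1 : r < 1 := by
    by_contra hc
    push Not at hc
    have : (1 : ℝ) ≤ r ^ 4 := one_le_pow₀ hc
    rw [hr4] at this
    linarith
  obtain ⟨E, hE⟩ : ∃ E, E = D + c + D * c := ⟨_, rfl⟩
  have hE0 : 0 ≤ E := by rw [hE]; positivity
  have hlr : 0 < Real.log (1 / r) := Real.log_pos (by rw [lt_div_iff₀ hr0]; linarith)
  obtain ⟨C1, N1, hC1, hN1, h1⟩ := sharpF s hs E r hE0 hr0 hr1
  obtain ⟨C3, δ3, N3, hC3, hδ3, hN3, h3⟩ := nested1 s hs E r hE0 hr0 hr1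
  obtain ⟨N4, hN4⟩ := eventually_atTop.1 (log_lin hδ3)
  obtain ⟨B, hB⟩ : ∃ B : ℝ, B = 2 * N + 2 / Real.log (1 / r) + 4 + s + N1 + N3 + N4 := ⟨_, rfl⟩
  refine ⟨max B (max C1 C3), 1 / r, δ3 / 2, ?_, by rw [lt_div_iff₀ hr0]; linarith,
    by linarith, ?_⟩
  · exact lt_of_lt_of_le hC1 ((le_max_left _ _).trans (le_max_right _ _))
  intro μ hμ X hX q hq T hT hsum m hm
  have hc1 : C1 ≤ max B (max C1 C3) := (le_max_left _ _).trans (le_max_right _ _)
  have hc3 : C3 ≤ max B (max C1 C3) := (le_max_right _ _).trans (le_max_right _ _)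
  have hc0 : B ≤ max B (max C1 C3) := le_max_left _ _
  have hL0 : 0 ≤ max 0 (Real.log (1 / T)) := le_max_left _ _
  obtain ⟨L, hL⟩ : ∃ L, L = max 0 (Real.log (1 / T)) := ⟨_, rfl⟩
  rw [← hL] at hm hL0
  have hmB : B * (1 + L) ≤ m := (mul_le_mul_of_nonneg_right hc0 (by linarith)).trans hm
  obtain ⟨M, hM⟩ : ∃ M : ℕ, M = ⌈L / Real.log (1 / r)⌉₊ := ⟨_, rfl⟩
  have hMle : (M : ℝ) ≤ L / Real.log (1 / r) + 1 := by
    rw [hM]; exact (Nat.ceil_lt_add_one (by positivity)).le
  have hi0 : 0 ≤ 1 / Real.log (1 / r) := by positivity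
  have e2 : 2 / Real.log (1 / r) = 2 * (1 / Real.log (1 / r)) := by ring
  have e3 : L / Real.log (1 / r) = L * (1 / Real.log (1 / r)) := by ring
  obtain ⟨v, hv⟩ : ∃ v, v = 1 / Real.log (1 / r) := ⟨_, rfl⟩
  have hBm : 2 * (N : ℝ) + 2 * M + 2 + s + N1 + N3 + N4 ≤ m := by
    refine le_trans ?_ hmB
    rw [hB, e2]
    rw [e3] at hMle
    rw [← hv] at hMle hi0 ⊢
    have h5 : 0 ≤ (2 * (N : ℝ) + 4 + s + N1 + N3 + N4) * L := by positivity
    have h6 : 0 ≤ v * L := by positivity
    nlinarith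
  have hBm' : 2 * N + 2 * M + 2 + s + N1 + N3 + N4 ≤ m := by exact_mod_cast hBm
  have hkey := nat_index hr0 hr1 hT
  rw [← hL, ← hM] at hkey
  have hρ0 : 0 < 1 / r / μ := by positivity
  have hlamr : 1 / r / μ * μ * r ≤ 1 := le_of_eq (by field_simp)
  have hle : ∀ k, X k * q k ≤ T := by
    intro k
    refine le_trans ?_ (hsum (k + 1))
    refine single_le_sum (f := fun m => X m * q m) (fun i _ => ?_)
      (mem_range.2 (Nat.lt_succ_self k))
    exact mul_nonneg (hX.nn i) (hq.nn i)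
  have hmk : ∀ Y : ℕ → ℝ, Kz s N D θ μ Y → (∀ n, Y n ≤ X n) →
      Cx s (max (max N 1) M) E r 0 (fun k => Y k * q k / T) := by
    intro Y hY hsub
    rw [hE]
    exact tiltQ (by rw [hr4]; exact hY) hr0 hD hc hμ hρ0 hq hlamr hT hkey (fun k =>
      (mul_le_mul_of_nonneg_right (hsub k) (hq.nn k)).trans (hle k))
  have hPx := hmk X hX (fun _ => le_rfl)
  have h2N : 2 * max (max N 1) M ≤ m := by omega
  have hsq : 0 ≤ 1 / √(m : ℝ) := by positivity
  have hsumP : ∀ Q, ∑ n ∈ range Q, X n * q n / T ≤ 1 := by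
    intro Q
    rw [← sum_div, div_le_one hT]
    exact hsum Q
  have hmain := h1 _ _ hPx hsumP m (by omega) h2N
  refine ⟨?_, ?_, ?_⟩
  · refine hmain.1.trans ?_
    rw [div_eq_mul_one_div, div_eq_mul_one_div (max _ _)]
    exact mul_le_mul_of_nonneg_right hc1 hsq
  · intro Y hY hYX k
    have h := hmain.2 (fun i k => Y i k * q k / T) (fun i => hmk (Y i) (hY i) (hYX i))
      (fun i n => div_le_div_of_nonneg_right
        (mul_le_mul_of_nonneg_right (hYX i n) (hq.nn n)) hT.le) k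
    refine h.trans ?_
    rw [div_eq_mul_one_div, div_eq_mul_one_div (max _ _)]
    exact mul_le_mul_of_nonneg_right hc1 hsq
  · intro hexp
    have hm0 : (0 : ℝ) < m := by
      have : 0 < m := by omega
      exact_mod_cast this
    obtain ⟨p, hp⟩ : ∃ p, p = X m * q m / T := ⟨_, rfl⟩
    rw [← hp] at hexp ⊢
    have hp0 : 0 < p := lt_of_lt_of_le (Real.exp_pos _) hexp
    have hp1 : p ≤ 1 := by rw [hp, div_le_one hT]; exact hle m
    have hlp : 0 ≤ Real.log (1 / p) := Real.log_nonneg (by rw [le_div_iff₀ hp0]; linarith)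
    have hlp2 : Real.log (1 / p) ≤ δ3 / 2 * m := by
      rw [one_div, Real.log_inv]
      have := Real.log_le_log (Real.exp_pos _) hexp
      rw [Real.log_exp] at this
      linarith
    have h5 := hN4 m (by omega)
    have hlogm : 0 ≤ Real.log (m : ℝ) := Real.log_nonneg (by
      have : 1 ≤ m := by omega
      exact_mod_cast this)
    have hexpa : Real.exp (-(1 + Real.log (1 / p))) ≤ p := by
      rw [neg_add, Real.exp_add, one_div, Real.log_inv, neg_neg, Real.exp_log hp0]
      have : Real.exp (-1) ≤ 1 := Real.exp_le_one_iff.2 (by norm_num)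
      nlinarith
    have hsq' : 0 ≤ √((1 + Real.log (1 / p)) / m) := Real.sqrt_nonneg _
    have hqm : q m ≠ 0 := by
      intro h0
      rw [h0, mul_zero, zero_div] at hp
      linarith
    have happ : ∀ Y : ℕ → ℝ, Kz s N D θ μ Y → (∀ n, Y n ≤ X n) → _ := fun Y hY hsub =>
        h3 _ _ _ hPx (hmk Y hY hsub) (fun k => div_le_div_of_nonneg_right
          (mul_le_mul_of_nonneg_right (hsub k) (hq.nn k)) hT.le) m (by omega)
          h2N (1 + Real.log (1 / p)) (by linarith) (by linarith) (by rw [← hp]; exact hexpa)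
    refine ⟨?_, fun Y hY hsub => ?_⟩
    · have h := (happ X hX (fun _ => le_rfl)).1
      have e : X (m + s) * q (m + s) / T / (X m * q m / T) =
          X (m + s) * q (m + s) / (X m * q m) := by
        rw [div_div_div_cancel_right₀ hT.ne']
      rw [e] at h
      exact h.trans (mul_le_mul_of_nonneg_right hc3 hsq')
    · have h := (happ Y hY hsub).2
      have e : ∀ k, q k ≠ 0 → Y k * q k / T / (X k * q k / T) = Y k / X k := by
        intro k hk
        rw [div_div_div_cancel_right₀ hT.ne', mul_div_mul_right _ _ hk]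
      have hqs : q (m + s) ≠ 0 := by
        intro h0
        have h6 := hq.cx (m - s) (by omega)
        rw [show m - s + s = m by omega, show m - s + 2 * s = m + s by omega, h0] at h6
        rw [mul_zero, zero_mul] at h6
        exact hqm (pow_eq_zero_iff (two_ne_zero) |>.1 (le_antisymm h6 (sq_nonneg _)))
      rw [e _ hqs, e _ hqm] at h
      exact h.trans (mul_le_mul_of_nonneg_right hc3 hsq')

end Q78.UG
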