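import Pool.Agent.Q78.UG.KnotFin
import Pool.Agent.Q78.UW.ExLaw

set_option autoImplicit false

/-! Lattice polygons of a class of knot types in random domains: all lengths from sparse lengths. -/

namespace Q78.UG.Kn

open Finset Filter Topology KN MeasureTheory Q78.Z3 Q78.UW.Ex
open scoped Classical

noncomputable section

/-- mean number of closed words with `n` letters, of the random class `Q`, with all vertices in the
random set `D` -/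
def ZR {Ω : Type} [MeasurableSpace Ω] (ν : Measure Ω) (D : Ω → Set Z3)
    (Q : Ω → List Dir → Prop) (n : ℕ) : ℝ :=
  ∫ ω, (((K (Q ω) n).filter (fun w => ∀ p ∈ path w, p ∈ D ω)).card : ℝ) ∂ν

/-- random subclasses of `Q` -/
def Sub {Ω : Type} [MeasurableSpace Ω] (Q : List Dir → Prop) (Q' : Ω → List Dir → Prop) : Prop :=
  (∀ ω, KClass (Q' ω)) ∧ (∀ ω w, Q' ω w → Q w) ∧ ∀ w, MeasurableSet {ω | Q' ω w}

theorem card_sumR {Ω : Type} {Q : List Dir → Prop} {Q' : Ω → List Dir → Prop}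
    (h : ∀ ω w, Q' ω w → Q w) (D : Ω → Set Z3) (n : ℕ) (ω : Ω) :
    ((KD (Q' ω) (D ω) n).card : ℝ) =
      ∑ w ∈ K Q n, Set.indicator ({ω | ∀ p ∈ path w, p ∈ D ω} ∩ {ω | Q' ω w})
        (fun _ => (1 : ℝ)) ω := by
  have e : KD (Q' ω) (D ω) n = (K Q n).filter (fun w => (∀ p ∈ path w, p ∈ D ω) ∧ Q' ω w) := by
    ext w
    rw [mem_KD, mem_filter, mem_K]
    constructor
    · rintro ⟨⟨h1, h2, h3⟩, h4⟩
      exact ⟨⟨h1, h2, h ω w h3⟩, h4, h3⟩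
    · rintro ⟨⟨h1, h2, -⟩, h4, h3⟩
      exact ⟨⟨h1, h2, h3⟩, h4⟩
  rw [e, Finset.card_filter]
  push_cast
  refine Finset.sum_congr rfl fun w _ => ?_
  rw [Set.indicator_apply]
  rfl

theorem integrable_R {Ω : Type} [MeasurableSpace Ω] (ν : Measure Ω) [IsProbabilityMeasure ν]
    {D : Ω → Set Z3} (hD : ∀ p, MeasurableSet {ω | p ∈ D ω}) {Q : List Dir → Prop}
    {Q' : Ω → List Dir → Prop} (hQ' : Sub Q Q') (n : ℕ) :
    Integrable (fun ω => ((KD (Q' ω) (D ω) n).card : ℝ)) ν := by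
  simp only [card_sumR hQ'.2.1]
  refine integrable_finsetSum _ fun w _ => ?_
  exact (integrable_const (1 : ℝ)).indicator ((meas_set hD w).inter (hQ'.2.2 w))

theorem ZR_nonneg {Ω : Type} [MeasurableSpace Ω] (ν : Measure Ω) (D : Ω → Set Z3)
    (Q : Ω → List Dir → Prop) (n : ℕ) : 0 ≤ ZR ν D Q n := integral_nonneg fun _ => Nat.cast_nonneg _

theorem ZR_mono {Ω : Type} [MeasurableSpace Ω] (ν : Measure Ω) [IsProbabilityMeasure ν]
    {D D' : Ω → Set Z3} (hD : ∀ p, MeasurableSet {ω | p ∈ D ω})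
    (hD' : ∀ p, MeasurableSet {ω | p ∈ D' ω}) (h : ∀ ω, D' ω ⊆ D ω) {Q : List Dir → Prop}
    (hQ : KClass Q) {Q' : Ω → List Dir → Prop} (hQ' : Sub Q Q') (n : ℕ) :
    ZR ν D' Q' n ≤ ZR ν D (fun _ => Q) n := by
  have hc : Sub Q (fun _ : Ω => Q) := ⟨fun _ => hQ, fun _ _ h => h, fun w => MeasurableSet.const _⟩
  refine integral_mono (integrable_R ν hD' hQ' n) (integrable_R ν hD hc n) fun ω => ?_
  have : KD (Q' ω) (D' ω) n ⊆ KD Q (D ω) n := by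
    intro w hw
    rw [mem_KD] at hw ⊢
    exact ⟨⟨hw.1.1, hw.1.2.1, hQ'.2.1 ω w hw.1.2.2⟩, fun p hp => h ω (hw.2 p hp)⟩
  show ((KD (Q' ω) (D' ω) n).card : ℝ) ≤ ((KD Q (D ω) n).card : ℝ)
  exact_mod_cast card_le_card this

/-- the normalised mean numbers -/
def YR {Ω : Type} [MeasurableSpace Ω] (g : ℝ) (ν : Measure Ω) (D : Ω → Set Z3)
    (Q : Ω → List Dir → Prop) (j : ℕ) : ℝ := ZR ν D Q (2 * j) / g ^ (2 * j)

/-- the normalised mean numbers satisfy Kesten's inequality -/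
theorem knot_cl (Q : List Dir → Prop) (hQ : KClass Q) (hne : ∃ w, SAP w ∧ Q w) :
    ∃ (N : ℕ) (E θ : ℝ), 0 ≤ E ∧ 0 < θ ∧ θ < 1 ∧
      ∀ (Ω : Type) [MeasurableSpace Ω] (ν : Measure Ω) [IsProbabilityMeasure ν] (D : Ω → Set Z3),
      (∀ p, MeasurableSet {ω | p ∈ D ω}) → ∀ Q' : Ω → List Dir → Prop, Sub Q Q' →
      Cl 1 N E θ (YR (gr Q) ν D Q') := by
  obtain ⟨C, θ, N, hC, hθ0, hθ1, h⟩ := kesD Q hQ hne
  obtain ⟨g1, -, g2⟩ := gr_bounds Q hQ hne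
  have hg : 0 < gr Q := by linarith
  obtain ⟨N', -, hN'⟩ := mean (s := 2) (N := N) hC hθ0 hθ1
  obtain ⟨θ', hθ'⟩ : ∃ θ' : ℝ, θ' = (1 + θ) / 2 := ⟨_, rfl⟩
  have h0' : 0 < θ' := by rw [hθ']; linarith
  have h1' : θ' < 1 := by rw [hθ']; linarith
  refine ⟨max N' 1, C + 1, θ', by linarith, h0', h1', ?_⟩
  intro Ω _ ν _ D hD Q' hQ'
  have hk := hN' (gr Q) hg Ω ν (fun ω n => ((KD (Q' ω) (D ω) n).card : ℝ))
    (fun n => integrable_R ν hD hQ' n) (fun ω => h (Q' ω) (GEN.inv_of _ (hQ'.1 ω)) (hQ'.2.1 ω) (D ω))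
  rw [← hθ'] at hk
  have hk' : Kz 2 N' (C + 1) θ' (gr Q) (ZR ν D Q') := hk
  refine ⟨fun j => div_nonneg (ZR_nonneg ν D Q' _) (by positivity), fun n hn hbig => ?_⟩
  have hn1 : 1 ≤ n := (le_max_right _ _).trans hn
  have hnN : N' ≤ n := (le_max_left _ _).trans hn
  have hn0 : (0 : ℝ) < n := by exact_mod_cast hn1
  unfold YR at hbig ⊢
  rw [show 2 * (n + 1) = 2 * n + 2 by ring] at hbig ⊢
  rw [show 2 * (n + 2 * 1) = 2 * n + 2 * 2 by ring]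
  obtain ⟨a, ha⟩ : ∃ a, a = ZR ν D Q' (2 * n) := ⟨_, rfl⟩
  obtain ⟨b, hb⟩ : ∃ b, b = ZR ν D Q' (2 * n + 2) := ⟨_, rfl⟩
  obtain ⟨c, hc⟩ : ∃ c, c = ZR ν D Q' (2 * n + 2 * 2) := ⟨_, rfl⟩
  have ha0 : 0 ≤ a := by rw [ha]; exact ZR_nonneg ν D Q' _
  have hc0 : 0 ≤ c := by rw [hc]; exact ZR_nonneg ν D Q' _
  have hkes := hk'.kes (2 * n) (by omega) (by
    rw [← hb] at hbig ⊢
    rw [le_div_iff₀ (by positivity)] at hbig
    calc (θ' * gr Q) ^ (2 * n + 2) = θ' ^ (2 * n + 2) * gr Q ^ (2 * n + 2) := mul_pow _ _ _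
      _ ≤ θ' ^ (n + 1) * gr Q ^ (2 * n + 2) := by
          refine mul_le_mul_of_nonneg_right ?_ (by positivity)
          exact pow_le_pow_of_le_one h0'.le h1'.le (by omega)
      _ ≤ b := hbig)
  rw [← ha, ← hb, ← hc] at hkes
  rw [← ha, ← hb, ← hc]
  have h6 : (C + 1) / ((2 * n : ℕ) : ℝ) ≤ (C + 1) / (n : ℝ) :=
    div_le_div_of_nonneg_left (by linarith) hn0 (by push_cast; linarith)
  have e4 : (gr Q ^ (2 * n + 2)) ^ 2 = gr Q ^ (2 * n) * gr Q ^ (2 * n + 2 * 2) := by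
    rw [← pow_mul, ← pow_add]
    congr 1
    ring
  rw [div_pow, div_mul_div_comm, div_mul_eq_mul_div, e4,
    div_le_div_iff_of_pos_right (by positivity)]
  exact hkes.trans (mul_le_mul_of_nonneg_left (by linarith) (mul_nonneg ha0 hc0))

/-- **polygons of a class of knot types in random domains: all lengths from sparse lengths** -/
theorem knot_ex (Q : List Dir → Prop) (hQ : KClass Q) (hne : ∃ w, SAP w ∧ Q w) :
    ∃ C : ℝ, 0 < C ∧ ∀ (Ω : Type) [MeasurableSpace Ω] (ν : Measure Ω) [IsProbabilityMeasure ν]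
      (D : Ω → Set Z3), (∀ p, MeasurableSet {ω | p ∈ D ω}) → ∀ (S : Set ℕ),
      -- bounds
      (∀ (E ψ : ℕ → ℝ) (τ δ : ℝ), Q294.Sp1.Err E → Slow ψ → 0 < τ → 0 < δ → Gap S δ E →
        (∀ᶠ k in atTop, k ∈ S → 0 < YR (gr Q) ν D (fun _ => Q) k ∧
          |Real.log (YR (gr Q) ν D (fun _ => Q) k) - ψ k| ≤ τ * E k) →
        ∀ᶠ k in atTop, 0 < YR (gr Q) ν D (fun _ => Q) k ∧
          |Real.log (YR (gr Q) ν D (fun _ => Q) k) - ψ k| ≤ C * (τ + δ ^ 2) * E k) ∧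
      -- rates
      (∀ (E : ℕ → ℝ) (τ δ : ℝ), Q294.Sp1.Err E → 0 < τ → 0 < δ → Gap S δ E →
        (∀ᶠ k in atTop, k ∈ S → 0 < YR (gr Q) ν D (fun _ => Q) k ∧
          |Real.log (YR (gr Q) ν D (fun _ => Q) k)| ≤ τ * E k) →
        ∀ᶠ k : ℕ in atTop,
          |YR (gr Q) ν D (fun _ => Q) (k + 1) / YR (gr Q) ν D (fun _ => Q) k - 1| ≤
            C * √((1 + τ + δ ^ 2) * E k / k) ∧
          ∀ (D' : Ω → Set Z3) (Q' : Ω → List Dir → Prop), (∀ p, MeasurableSet {ω | p ∈ D' ω}) →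
            (∀ ω, D' ω ⊆ D ω) → Sub Q Q' →
            |ZR ν D' Q' (2 * (k + 1)) / ZR ν D (fun _ => Q) (2 * (k + 1)) -
              ZR ν D' Q' (2 * k) / ZR ν D (fun _ => Q) (2 * k)| ≤
                C * √((1 + τ + δ ^ 2) * E k / k)) ∧
      -- forms
      (∀ ψ : ℕ → ℝ, Slow ψ → (∀ δ : ℝ, 0 < δ → Gap S δ (fun _ => 1)) →
        Tendsto (fun k => YR (gr Q) ν D (fun _ => Q) k / Real.exp (ψ k)) (atTop ⊓ 𝓟 S) (𝓝 1) →
        Tendsto (fun k => YR (gr Q) ν D (fun _ => Q) k / Real.exp (ψ k)) atTop (𝓝 1)) ∧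
      -- exponents
      (∀ β : ℝ, (∀ δ : ℝ, 0 < δ → Gap S δ (fun n => Real.log n)) →
        (∀ᶠ k in atTop, k ∈ S → 0 < YR (gr Q) ν D (fun _ => Q) k) →
        Tendsto (fun k : ℕ => Real.log (YR (gr Q) ν D (fun _ => Q) k) / Real.log k)
          (atTop ⊓ 𝓟 S) (𝓝 β) →
        Tendsto (fun k : ℕ => Real.log (YR (gr Q) ν D (fun _ => Q) k) / Real.log k) atTop (𝓝 β)) ∧
      -- sharp rates
      (∀ ψ : ℕ → ℝ, Slow ψ → ∀ K0 d : ℝ, 0 < d → Gap S d (fun _ => 1) →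
        (∀ᶠ n in atTop, n ∈ S → 0 < YR (gr Q) ν D (fun _ => Q) n ∧
          |Real.log (YR (gr Q) ν D (fun _ => Q) n) - ψ n| ≤ K0) →
        ∃ C' : ℝ, 0 < C' ∧ ∀ᶠ n : ℕ in atTop, 0 < ZR ν D (fun _ => Q) (2 * n) ∧
          |YR (gr Q) ν D (fun _ => Q) (n + 1) / YR (gr Q) ν D (fun _ => Q) n - 1| ≤ C' / √n ∧
          ∀ (D' : Ω → Set Z3) (Q' : Ω → List Dir → Prop), (∀ p, MeasurableSet {ω | p ∈ D' ω}) →
            (∀ ω, D' ω ⊆ D ω) → Sub Q Q' →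
            |ZR ν D' Q' (2 * (n + 1)) / ZR ν D (fun _ => Q) (2 * (n + 1)) -
              ZR ν D' Q' (2 * n) / ZR ν D (fun _ => Q) (2 * n)| ≤ C' / √n) := by
  obtain ⟨N, E0, θ, hE0, hθ0, hθ1, hcl⟩ := knot_cl Q hQ hne
  obtain ⟨C, hC, h⟩ := abs_main N E0 θ hE0 hθ0 hθ1
  obtain ⟨g1, -, g2⟩ := gr_bounds Q hQ hne
  have hg : 0 < gr Q := by linarith
  refine ⟨C, hC, ?_⟩
  intro Ω _ ν _ D hD S
  have hc : Sub Q (fun _ : Ω => Q) := ⟨fun _ => hQ, fun _ _ h => h, fun w => MeasurableSet.const _⟩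
  have hx := hcl Ω ν D hD (fun _ => Q) hc
  obtain ⟨a1, a2, a3, a4⟩ := h S _ hx
  have hquot : ∀ (D' : Ω → Set Z3) (Q' : Ω → List Dir → Prop) (k : ℕ),
      YR (gr Q) ν D' Q' k / YR (gr Q) ν D (fun _ => Q) k =
        ZR ν D' Q' (2 * k) / ZR ν D (fun _ => Q) (2 * k) := by
    intro D' Q' k
    unfold YR
    rw [div_div_div_cancel_right₀ (by positivity)]
  refine ⟨a1, ?_, a3, a4, ?_⟩
  · intro E τ δ hE hτ hδ hS hk
    filter_upwards [a2 E τ δ hE hτ hδ hS hk] with k hk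
    refine ⟨hk.1, fun D' Q' hD' hsub hQ' => ?_⟩
    have h2 := hk.2 (YR (gr Q) ν D' Q') (hcl Ω ν D' hD' Q' hQ') (fun n =>
      div_le_div_of_nonneg_right (ZR_mono ν hD hD' hsub hQ hQ' _) (by positivity))
    rw [hquot, hquot] at h2
    exact h2
  · intro ψ hψ K0 d hd hS hk
    have h2 := a1 (fun _ => 1) ψ (|K0| + 1) d Q294.Sp1.err_one hψ (by positivity) hd hS (by
      filter_upwards [hk] with n hn hnS
      obtain ⟨g1, g2⟩ := hn hnS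
      refine ⟨g1, g2.trans ?_⟩
      rw [mul_one]
      linarith [le_abs_self K0])
    obtain ⟨C1, N1, hC1, hN1, hnest⟩ := nested_slow N E0 θ hE0 hθ0 hθ1 hψ
      (C * (|K0| + 1 + d ^ 2) * 1) (by positivity)
    obtain ⟨M, hM⟩ := eventually_atTop.1 h2
    refine ⟨C1, hC1, ?_⟩
    filter_upwards [eventually_ge_atTop (N1 + 2 * M)] with n hn
    have hloc : ∀ i, n ≤ 2 * i → i ≤ 2 * n → 0 < YR (gr Q) ν D (fun _ => Q) i ∧
        |Real.log (YR (gr Q) ν D (fun _ => Q) i) - ψ i| ≤ C * (|K0| + 1 + d ^ 2) * 1 :=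
      fun i h1 _ => hM i (by omega)
    refine ⟨?_, (hnest _ _ hx hx (fun _ => le_rfl) n (by omega) hloc).1,
      fun D' Q' hD' hsub hQ' => ?_⟩
    · have h3 := (hM n (by omega)).1
      unfold YR at h3
      exact (div_pos_iff_of_pos_right (by positivity)).1 h3
    · have h3 := (hnest _ _ hx (hcl Ω ν D' hD' Q' hQ') (fun m =>
        div_le_div_of_nonneg_right (ZR_mono ν hD hD' hsub hQ hQ' _) (by positivity)) n
        (by omega) hloc).2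
      rw [hquot, hquot] at h3
      exact h3

end

end Q78.UG.Kn
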