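import Pool.Agent.Q78.UG.Knot
import Pool.Agent.Q78.UG.AbsQ

set_option autoImplicit false

/-! Random polygons of a class of knot types in a random domain: the law of the length. -/

namespace Q78.UG.Kn

open Finset KN MeasureTheory
open scoped Classical

noncomputable section

/-- mean number of closed words with `n` letters, of class `Q`, with all vertices in the random
set `D` -/
def Z {Ω : Type} [MeasurableSpace Ω] (ν : Measure Ω) (D : Ω → Set Z3) (Q : List Dir → Prop)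
    (n : ℕ) : ℝ := ∫ ω, (((K Q n).filter (fun w => ∀ p ∈ path w, p ∈ D ω)).card : ℝ) ∂ν

theorem card_sum {Ω : Type} (D : Ω → Set Z3) (Q : List Dir → Prop) (n : ℕ) (ω : Ω) :
    ((KD Q (D ω) n).card : ℝ) =
      ∑ w ∈ K Q n, Set.indicator {ω | ∀ p ∈ path w, p ∈ D ω} (fun _ => (1 : ℝ)) ω := by
  unfold KD
  rw [Finset.card_filter]
  push_cast
  refine Finset.sum_congr rfl fun w _ => ?_
  rw [Set.indicator_apply]
  rfl

theorem meas_set {Ω : Type} [MeasurableSpace Ω] {D : Ω → Set Z3}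
    (hD : ∀ p, MeasurableSet {ω | p ∈ D ω}) (w : List Dir) :
    MeasurableSet {ω | ∀ p ∈ path w, p ∈ D ω} := by
  have e : {ω | ∀ p ∈ path w, p ∈ D ω} = ⋂ p ∈ (path w).toFinset, {ω | p ∈ D ω} := by
    ext ω
    simp
  rw [e]
  exact Finset.measurableSet_biInter _ fun x _ => hD _

theorem integrable_card {Ω : Type} [MeasurableSpace Ω] (ν : Measure Ω) [IsProbabilityMeasure ν]
    {D : Ω → Set Z3} (hD : ∀ p, MeasurableSet {ω | p ∈ D ω}) (Q : List Dir → Prop) (n : ℕ) :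
    Integrable (fun ω => ((KD Q (D ω) n).card : ℝ)) ν := by
  simp only [card_sum]
  refine integrable_finsetSum _ fun w _ => ?_
  exact (integrable_const (1 : ℝ)).indicator (meas_set hD w)

theorem Z_mono {Ω : Type} [MeasurableSpace Ω] (ν : Measure Ω) [IsProbabilityMeasure ν]
    {D D' : Ω → Set Z3} (hD : ∀ p, MeasurableSet {ω | p ∈ D ω})
    (hD' : ∀ p, MeasurableSet {ω | p ∈ D' ω}) (h : ∀ ω, D' ω ⊆ D ω) {Q Q' : List Dir → Prop}
    (hQ : ∀ w, Q' w → Q w) (n : ℕ) : Z ν D' Q' n ≤ Z ν D Q n := by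
  refine integral_mono (integrable_card ν hD' Q' n) (integrable_card ν hD Q n) fun ω => ?_
  have : KD Q' (D' ω) n ⊆ KD Q (D ω) n := by
    intro w hw
    rw [mem_KD] at hw ⊢
    exact ⟨⟨hw.1.1, hw.1.2.1, hQ w hw.1.2.2⟩, fun p hp => h ω (hw.2 p hp)⟩
  show ((KD Q' (D' ω) n).card : ℝ) ≤ ((KD Q (D ω) n).card : ℝ)
  exact_mod_cast card_le_card this

theorem Z_nonneg {Ω : Type} [MeasurableSpace Ω] (ν : Measure Ω) (D : Ω → Set Z3)
    (Q : List Dir → Prop) (n : ℕ) : 0 ≤ Z ν D Q n := integral_nonneg fun _ => Nat.cast_nonneg _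

/-- Kesten's inequality in a random domain -/
theorem kesZ (Q : List Dir → Prop) (hQ : KClass Q) (hne : ∃ w, SAP w ∧ Q w) :
    ∃ (C θ : ℝ) (N : ℕ), 0 ≤ C ∧ 0 < θ ∧ θ < 1 ∧
      ∀ (Q' : List Dir → Prop), Inv Q' → (∀ w, Q' w → Q w) → ∀ (Ω : Type) [MeasurableSpace Ω]
      (ν : Measure Ω) [IsProbabilityMeasure ν] (D : Ω → Set Z3),
      (∀ p, MeasurableSet {ω | p ∈ D ω}) → Kz 2 N C θ (gr Q) (Z ν D Q') := by
  obtain ⟨C, θ, N, hC, hθ0, hθ1, h⟩ := kesD Q hQ hne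
  obtain ⟨g1, -, g2⟩ := gr_bounds Q hQ hne
  obtain ⟨N', -, hN'⟩ := mean (s := 2) (N := N) hC hθ0 hθ1
  refine ⟨C + 1, (1 + θ) / 2, N', by linarith, by linarith, by linarith, ?_⟩
  intro Q' hinv hsub Ω _ ν _ D hD
  exact hN' (gr Q) (by linarith) Ω ν (fun ω n => ((KD Q' (D ω) n).card : ℝ))
    (fun n => integrable_card ν hD Q' n) (fun ω => h Q' hinv hsub (D ω))

/-- probability that the polygon has `n` edges, is of class `Q` and lies in `D` -/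
def Pq {Ω : Type} [MeasurableSpace Ω] (ν : Measure Ω) (q : ℕ → ℝ) (T : ℝ) (D : Ω → Set Z3)
    (Q : List Dir → Prop) (n : ℕ) : ℝ := Z ν D Q n * q n / T

/-- **the length of a random polygon of a class of knot types in a random domain** -/
theorem main (Q : List Dir → Prop) (hQ : KClass Q) (hne : ∃ w, SAP w ∧ Q w) (c : ℝ)
    (hc : 0 ≤ c) : ∃ C κ δ : ℝ, 0 < C ∧ 1 < κ ∧ 0 < δ ∧
    ∀ (Ω : Type) [MeasurableSpace Ω] (ν : Measure Ω) [IsProbabilityMeasure ν] (D : Ω → Set Z3),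
      (∀ p, MeasurableSet {ω | p ∈ D ω}) →
      ∀ q : ℕ → ℝ, (∀ n, 0 ≤ q n) → (∀ n, q n ≤ (κ / gr Q) ^ n) →
      (∀ n, 1 ≤ n → q (n + 2) ^ 2 ≤ q n * q (n + 4) * (1 + c / n)) →
      ∀ T : ℝ, 0 < T → HasSum (fun n => Z ν D Q n * q n) T →
      ∀ m : ℕ, C * (1 + max 0 (Real.log (1 / T))) ≤ m →
        Pq ν q T D Q m ≤ C / √(m : ℝ) ∧
        (∀ (Q' : ℕ → List Dir → Prop) (D' : ℕ → Ω → Set Z3),
          (∀ i, KClass (Q' i)) → (∀ i w, Q' i w → Q w) →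
          (∀ i p, MeasurableSet {ω | p ∈ D' i ω}) → (∀ i ω, D' i ω ⊆ D ω) →
          ∀ k, ∑ i ∈ range k, |Pq ν q T (D' i) (Q' i) (m + i + 2) -
            Pq ν q T (D' i) (Q' i) (m + i)| ≤ C / √(m : ℝ)) ∧
        (Real.exp (-δ * m) ≤ Pq ν q T D Q m →
          |Pq ν q T D Q (m + 2) / Pq ν q T D Q m - 1| ≤
            C * √((1 + Real.log (1 / Pq ν q T D Q m)) / m) ∧
          ∀ (Q' : List Dir → Prop) (D' : Ω → Set Z3), KClass Q' → (∀ w, Q' w → Q w) →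
            (∀ p, MeasurableSet {ω | p ∈ D' ω}) → (∀ ω, D' ω ⊆ D ω) →
            |Z ν D' Q' (m + 2) / Z ν D Q (m + 2) - Z ν D' Q' m / Z ν D Q m| ≤
              C * √((1 + Real.log (1 / Pq ν q T D Q m)) / m)) := by
  obtain ⟨C0, θ, N, hC0, hθ0, hθ1, h⟩ := kesZ Q hQ hne
  obtain ⟨g1, -, g2⟩ := gr_bounds Q hQ hne
  obtain ⟨C, κ, δ, hC, hκ, hδ, hmain⟩ := fugQ 2 N (by norm_num) C0 c θ hC0 hc hθ0 hθ1
  refine ⟨C, κ, δ, hC, hκ, hδ, ?_⟩
  intro Ω _ ν _ D hD q hq0 hq1 hq2 T hT hsum m hm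
  have hsub0 := h Q (GEN.inv_of Q hQ) (fun _ h => h) Ω ν D hD
  obtain ⟨a1, a2, a3⟩ := hmain (gr Q) (by linarith) (Z ν D Q) hsub0 q ⟨hq0, hq1, hq2⟩ T hT
    (fun M => hsum.summable.sum_le_tsum _ (fun n _ => mul_nonneg (Z_nonneg ν D Q n) (hq0 n))
      |>.trans (le_of_eq hsum.tsum_eq)) m hm
  refine ⟨a1, ?_, ?_⟩
  · intro Q' D' hQ' hsub hD' hDD k
    exact a2 (fun i => Z ν (D' i) (Q' i))
      (fun i => h (Q' i) (GEN.inv_of _ (hQ' i)) (hsub i) Ω ν (D' i) (hD' i))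
      (fun i n => Z_mono ν hD (hD' i) (hDD i) (hsub i) n) k
  · intro hexp
    obtain ⟨b1, b2⟩ := a3 hexp
    refine ⟨?_, ?_⟩
    · have e : Pq ν q T D Q (m + 2) / Pq ν q T D Q m =
          Z ν D Q (m + 2) * q (m + 2) / (Z ν D Q m * q m) := by
        unfold Pq
        rw [div_div_div_cancel_right₀ hT.ne']
      rw [e]
      exact b1
    · intro Q' D' hQ' hsub hD' hDD
      exact b2 (Z ν D' Q') (h Q' (GEN.inv_of _ hQ') hsub Ω ν D' hD')
        (fun n => Z_mono ν hD hD' hDD hsub n)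

end

end Q78.UG.Kn
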