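import Pool.Agent.Q78.UG.KnotFin

set_option autoImplicit false

/-! Random polygons of a class of knot types in a finite set. -/

namespace Q78.UG.Kn

open Finset KN MeasureTheory
open scoped Classical

noncomputable section

/-- the number of polygons with `n` edges and of class `Q` all of whose vertices are in the finite
set `F` (every polygon is counted `2 n` times by the sum: starting point and orientation) -/
def Np (Q : List Dir → Prop) (F : Finset Z3) (n : ℕ) : ℝ :=
  (∑ v ∈ F, (((K Q n).filter (fun w => ∀ p ∈ path w, p + v ∈ F)).card : ℝ)) / (2 * n)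

/-- weight -/
def wt (x : ℝ) (n : ℕ) : ℝ := if n = 0 then 1 else x ^ n / (2 * n)

/-- uniform law on `F` -/
def uni (F : Finset Z3) : @Measure Z3 ⊤ :=
  ∑ v ∈ F, ENNReal.ofReal (1 / F.card) • @Measure.dirac Z3 ⊤ v

theorem uni_prob {F : Finset Z3} (hF : F.Nonempty) : @IsProbabilityMeasure Z3 ⊤ (uni F) := by
  let _ : MeasurableSpace Z3 := ⊤
  have hc : (0 : ℝ) < F.card := by exact_mod_cast hF.card_pos
  refine ⟨?_⟩
  unfold uni
  rw [Measure.finsetSum_apply]
  simp only [Measure.smul_apply, measure_univ, smul_eq_mul, mul_one]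
  rw [← ENNReal.ofReal_sum_of_nonneg (fun _ _ => by positivity), sum_const, nsmul_eq_mul,
    mul_one_div, div_self hc.ne', ENNReal.ofReal_one]

theorem uni_int {F : Finset Z3} (f : Z3 → ℝ) :
    @integral Z3 ℝ _ _ ⊤ (uni F) f = (∑ v ∈ F, f v) / F.card := by
  let _ : MeasurableSpace Z3 := ⊤
  unfold uni
  have hm : ∀ v : Z3, AEStronglyMeasurable f (Measure.dirac v) := fun v =>
    (measurable_from_top).aestronglyMeasurable
  have hint : ∀ v ∈ F, Integrable f (ENNReal.ofReal (1 / F.card) • Measure.dirac v) := by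
    intro v _
    refine Integrable.smul_measure ?_ ENNReal.ofReal_ne_top
    exact integrable_dirac (by simp)
  rw [integral_finsetSum_measure hint, sum_div]
  refine sum_congr rfl fun v _ => ?_
  rw [integral_smul_measure, integral_dirac, ENNReal.toReal_ofReal (by positivity), smul_eq_mul]
  ring

/-- the random set `F - v` -/
def sh (F : Finset Z3) (v : Z3) : Set Z3 := {p | p + v ∈ F}

theorem filt_eq (Q : List Dir → Prop) (F' : Finset Z3) (n : ℕ) (v : Z3) :
    (((K Q n).filter (fun w => ∀ p ∈ path w, p ∈ sh F' v)).card : ℝ) =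
      (((K Q n).filter (fun w => ∀ p ∈ path w, p + v ∈ F')).card : ℝ) := by
  congr 2
  ext w
  rw [mem_filter, mem_filter]
  exact Iff.rfl

theorem Z_uni1 (F F' : Finset Z3) (Q : List Dir → Prop) (n : ℕ) :
    @Z Z3 ⊤ (uni F) (sh F') Q n =
      (∑ v ∈ F, (((K Q n).filter (fun w => ∀ p ∈ path w, p + v ∈ F')).card : ℝ)) / F.card := by
  unfold Z
  rw [uni_int]
  exact congrArg (· / (F.card : ℝ)) (sum_congr rfl fun v _ => filt_eq Q F' n v)

theorem sum_sub {F F' : Finset Z3} (hFF : F' ⊆ F) (Q : List Dir → Prop) (n : ℕ) :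
    ∑ v ∈ F, (((K Q n).filter (fun w => ∀ p ∈ path w, p + v ∈ F')).card : ℝ) =
      ∑ v ∈ F', (((K Q n).filter (fun w => ∀ p ∈ path w, p + v ∈ F')).card : ℝ) := by
  symm
  apply sum_subset hFF
  intro v _ hv
  have : (K Q n).filter (fun w => ∀ p ∈ path w, p + v ∈ F') = ∅ := by
    rw [Finset.filter_eq_empty_iff]
    intro w _ hw
    have := hw 0 (zero_mem_path w)
    rw [zero_add] at this
    exact hv this
  rw [this, card_empty, Nat.cast_zero]

theorem Z_uni {F : Finset Z3} {F' : Finset Z3} (hFF : F' ⊆ F)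
    (Q : List Dir → Prop) {n : ℕ} (hn : 1 ≤ n) (x : ℝ) :
    @Z Z3 ⊤ (uni F) (sh F') Q n * wt x n = Np Q F' n * x ^ n / F.card := by
  rw [Z_uni1, sum_sub hFF]
  unfold wt Np
  rw [if_neg (by omega)]
  generalize ∑ v ∈ F', (((K Q n).filter (fun w => ∀ p ∈ path w, p + v ∈ F')).card : ℝ) = S
  ring

theorem wt_facts {x ρ : ℝ} (hx : 0 < x) (hxρ : x ≤ ρ) :
    (∀ n, 0 ≤ wt x n) ∧ (∀ n, wt x n ≤ ρ ^ n) ∧
    (∀ n, 1 ≤ n → wt x (n + 2) ^ 2 ≤ wt x n * wt x (n + 4) * (1 + 0 / n)) := by
  refine ⟨fun n => ?_, fun n => ?_, fun n hn => ?_⟩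
  · unfold wt
    split_ifs <;> positivity
  · unfold wt
    split_ifs with h
    · rw [h, pow_zero]
    · have h1 : (1 : ℝ) ≤ n := by exact_mod_cast (by omega : 1 ≤ n)
      have h2 : x ^ n / (2 * n) ≤ x ^ n := div_le_self (by positivity) (by linarith)
      exact h2.trans (pow_le_pow_left₀ hx.le hxρ n)
  · unfold wt
    rw [if_neg (by omega), if_neg (by omega), if_neg (by omega), zero_div, add_zero, mul_one,
      div_pow, div_mul_div_comm, ← pow_mul, ← pow_add, show (n + 2) * 2 = n + (n + 4) by ring]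
    have hn0 : (0 : ℝ) < n := by exact_mod_cast hn
    refine div_le_div_of_nonneg_left (by positivity) (by positivity) ?_
    push_cast
    nlinarith

theorem Np_zero (Q : List Dir → Prop) (F : Finset Z3) : Np Q F 0 = 0 := by
  unfold Np
  simp

theorem Z_zero {Ω : Type} [MeasurableSpace Ω] (ν : Measure Ω) (D : Ω → Set Z3)
    (Q : List Dir → Prop) : Z ν D Q 0 = 0 := by
  unfold Z
  have : ∀ ω, (((K Q 0).filter (fun w => ∀ p ∈ path w, p ∈ D ω)).card : ℝ) = 0 := by
    intro ω
    have h : K Q 0 = ∅ := by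
      rw [Finset.eq_empty_iff_forall_notMem]
      intro w hw
      rw [mem_K] at hw
      have := hw.2.1.1
      omega
    rw [h, filter_empty, card_empty, Nat.cast_zero]
  simp only [this, integral_zero]

theorem Z_wt {F : Finset Z3} (hF : F.Nonempty) {F' : Finset Z3} (hFF : F' ⊆ F)
    (Q : List Dir → Prop) (n : ℕ) (x : ℝ) :
    @Z Z3 ⊤ (uni F) (sh F') Q n * wt x n = Np Q F' n * x ^ n / F.card := by
  rcases Nat.eq_zero_or_pos n with h | h
  · subst h
    rw [@Z_zero Z3 ⊤, Np_zero]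
    simp
  · exact Z_uni hFF Q h x

/-- **a random polygon in a finite set** -/
theorem finite (Q : List Dir → Prop) (hQ : KClass Q) (hne : ∃ w, SAP w ∧ Q w) :
    ∃ C κ δ : ℝ, 0 < C ∧ 1 < κ ∧ 0 < δ ∧
    ∀ (F : Finset Z3) (x T : ℝ), 0 < x → x ≤ κ / gr Q → 0 < T →
      HasSum (fun n => Np Q F n * x ^ n) T →
      ∀ m : ℕ, C * (1 + max 0 (Real.log (F.card / T))) ≤ m →
        Np Q F m * x ^ m / T ≤ C / √(m : ℝ) ∧
        (∀ (Q' : ℕ → List Dir → Prop) (F' : ℕ → Finset Z3),
          (∀ i, KClass (Q' i)) → (∀ i w, Q' i w → Q w) → (∀ i, F' i ⊆ F) →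
          ∀ k, ∑ i ∈ range k, |Np (Q' i) (F' i) (m + i + 2) * x ^ (m + i + 2) / T -
            Np (Q' i) (F' i) (m + i) * x ^ (m + i) / T| ≤ C / √(m : ℝ)) ∧
        (Real.exp (-δ * m) ≤ Np Q F m * x ^ m / T →
          |Np Q F (m + 2) * x ^ (m + 2) / (Np Q F m * x ^ m) - 1| ≤
            C * √((1 + Real.log (1 / (Np Q F m * x ^ m / T))) / m) ∧
          ∀ (Q' : List Dir → Prop) (F' : Finset Z3), KClass Q' → (∀ w, Q' w → Q w) → F' ⊆ F →
            |Np Q' F' (m + 2) / Np Q F (m + 2) - Np Q' F' m / Np Q F m| ≤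
              C * √((1 + Real.log (1 / (Np Q F m * x ^ m / T))) / m)) := by
  obtain ⟨C, κ, δ, hC, hκ, hδ, h⟩ := main Q hQ hne 0 le_rfl
  refine ⟨C, κ, δ, hC, hκ, hδ, ?_⟩
  intro F x T hx hxκ hT hsum m hm
  have hF : F.Nonempty := by
    by_contra hc
    rw [Finset.not_nonempty_iff_eq_empty] at hc
    subst hc
    have h0 : (fun n => Np Q ∅ n * x ^ n) = fun _ => 0 := by
      funext n
      unfold Np
      simp
    rw [h0] at hsum
    have := hsum.unique hasSum_zero
    linarith
  have hc : (0 : ℝ) < F.card := by exact_mod_cast hF.card_pos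
  let _ : MeasurableSpace Z3 := ⊤
  have := uni_prob hF
  obtain ⟨w1, w2, w3⟩ := wt_facts hx hxκ
  have hT' : 0 < T / F.card := by positivity
  have hsum' : HasSum (fun n => Z (uni F) (sh F) Q n * wt x n) (T / F.card) := by
    have h1 := hsum.div_const (F.card : ℝ)
    refine h1.congr_fun ?_
    intro n
    exact Z_wt hF subset_rfl Q n x
  have hmm : C * (1 + max 0 (Real.log (1 / (T / F.card)))) ≤ m := by
    rw [one_div_div]
    exact hm
  obtain ⟨a1, a2, a3⟩ := h Z3 (uni F) (sh F) (fun _ => trivial) (wt x) w1 w2 w3 (T / F.card) hT'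
    hsum' m hmm
  have hPq : ∀ (Q' : List Dir → Prop) (F' : Finset Z3), F' ⊆ F → ∀ n,
      Pq (uni F) (wt x) (T / F.card) (sh F') Q' n = Np Q' F' n * x ^ n / T := by
    intro Q' F' hF' n
    unfold Pq
    rw [Z_wt hF hF' Q' n x]
    field_simp
  refine ⟨?_, ?_, ?_⟩
  · rw [hPq Q F subset_rfl] at a1
    exact a1
  · intro Q' F' hQ' hsub hFF k
    have b := a2 Q' (fun i => sh (F' i)) hQ' hsub (fun _ _ => trivial)
      (fun i v p hp => hFF i hp) k
    simp only [fun i => hPq (Q' i) (F' i) (hFF i)] at b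
    exact b
  · intro hexp
    rw [hPq Q F subset_rfl, hPq Q F subset_rfl] at a3
    obtain ⟨b1, b2⟩ := a3 hexp
    refine ⟨?_, ?_⟩
    · rw [div_div_div_cancel_right₀ hT.ne'] at b1
      exact b1
    · intro Q' F' hQ' hsub hFF
      have b3 := b2 Q' (sh F') hQ' hsub (fun _ => trivial) (fun v p hp => hFF hp)
      have hm1 : 1 ≤ m := by
        by_contra hc
        have : m = 0 := by omega
        subst this
        rw [Np_zero, zero_mul, zero_div] at hexp
        exact absurd hexp (not_le.2 (Real.exp_pos _))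
      have hquot : ∀ n, 1 ≤ n → Z (uni F) (sh F') Q' n / Z (uni F) (sh F) Q n =
          Np Q' F' n / Np Q F n := by
        intro n hn
        have e1 := Z_wt hF hFF Q' n x
        have e2 := Z_wt hF (subset_rfl) Q n x
        have hw : wt x n ≠ 0 := by
          unfold wt
          rw [if_neg (by omega)]
          have : (0 : ℝ) < n := by exact_mod_cast hn
          positivity
        have hxn : x ^ n ≠ 0 := by positivity
        rw [← mul_div_mul_right (Z (uni F) (sh F') Q' n) (Z (uni F) (sh F) Q n) hw, e1, e2,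
          div_div_div_cancel_right₀ hc.ne', mul_div_mul_right _ _ hxn]
      rw [hquot _ hm1, hquot _ (by omega)] at b3
      exact b3

end

end Q78.UG.Kn
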