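import Pool.Agent.Q78.UG.KnotFin

set_option autoImplicit false

/-! Uniform random polygons of a class of knot types closed under connected sums: laws at
neighbouring lengths. -/

namespace Q78.UG.Kn

open Finset Filter Topology KN MeasureTheory
open scoped Classical

noncomputable section

theorem le_of_pow2 {A B C : ℝ} (_hA : 0 ≤ A) (hB : 0 < B)
    (h : ∀ i : ℕ, A ^ (2 ^ i) ≤ C * B ^ (2 ^ i)) : A ≤ B := by
  by_contra hc
  push Not at hc
  have h1 : 1 < A / B := by rwa [lt_div_iff₀ hB, one_mul]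
  have h2 := tendsto_pow_atTop_atTop_of_one_lt h1
  have h3 : Tendsto (fun i : ℕ => 2 ^ i) atTop atTop := tendsto_pow_atTop_atTop_of_one_lt one_lt_two
  obtain ⟨i, hi⟩ := ((h2.comp h3).eventually_gt_atTop C).exists
  simp only [Function.comp] at hi
  rw [div_pow, lt_div_iff₀ (by positivity)] at hi
  linarith [h i]

/-- supermultiplicativity gives an upper bound -/
theorem a_le (Q : List Dir → Prop) (hQ : KClass Q) (hne : ∃ w, SAP w ∧ Q w) (hc : CSum Q)
    (n : ℕ) : (a Q n : ℝ) ≤ 32 * n * gr Q ^ n := by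
  obtain ⟨g1, -, g2⟩ := gr_bounds Q hQ hne
  have hg : 0 < gr Q := by linarith
  by_cases hev : n % 2 = 0
  swap
  · have : K Q n = ∅ := by
      rw [Finset.eq_empty_iff_forall_notMem]
      intro w hw
      rw [mem_K] at hw
      have := even_of_closed hw.2.1.2.1
      omega
    unfold a
    rw [this, card_empty, Nat.cast_zero]
    positivity
  obtain ⟨k, rfl⟩ : ∃ k, n = 2 * k := ⟨n / 2, by omega⟩
  rcases Nat.eq_zero_or_pos k with h0 | hk
  · subst h0
    have : K Q (2 * 0) = ∅ := by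
      rw [Finset.eq_empty_iff_forall_notMem]
      intro w hw
      rw [mem_K] at hw
      have := hw.2.1.1
      omega
    unfold a
    rw [this, card_empty, Nat.cast_zero]
    positivity
  -- the normalised counts
  obtain ⟨y, hy⟩ : ∃ y : ℕ → ℝ, y = fun m => (a Q (2 * m) : ℝ) / (64 * m) := ⟨_, rfl⟩
  have hy0 : ∀ m, 0 ≤ y m := fun m => by rw [hy]; positivity
  have hdbl : ∀ m, 1 ≤ m → y m ^ 2 ≤ y (2 * m) := by
    intro m hm
    have hm0 : (0 : ℝ) < m := by exact_mod_cast hm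
    have h1 := GEN.super Q hQ hc (2 * m) (2 * m)
    have h2 : (a Q (2 * m) : ℝ) * a Q (2 * m) ≤ 16 * (2 * m) * a Q (2 * m + 2 * m) := by
      exact_mod_cast h1
    rw [hy]
    simp only
    rw [div_pow, div_le_div_iff₀ (by positivity) (by positivity)]
    rw [show 2 * (2 * m) = 2 * m + 2 * m by ring]
    push_cast
    nlinarith
  have hpow : ∀ i, y k ^ (2 ^ i) ≤ y (k * 2 ^ i) := by
    intro i
    induction i with
    | zero => simp
    | succ i ih =>
      have h1 := hdbl (k * 2 ^ i) (Nat.mul_pos hk (by positivity))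
      calc y k ^ (2 ^ (i + 1)) = (y k ^ (2 ^ i)) ^ 2 := by rw [← pow_mul, ← pow_succ]
        _ ≤ (y (k * 2 ^ i)) ^ 2 := pow_le_pow_left₀ (pow_nonneg (hy0 k) _) ih 2
        _ ≤ _ := h1
        _ = y (k * 2 ^ (i + 1)) := by congr 1; ring
  have hτ : ∀ τ : ℝ, 0 < τ → y k ≤ ((1 + τ) * gr Q) ^ (2 * k) := by
    intro τ hτ
    obtain ⟨C, hC⟩ := GEN.upper S_five_proof Q hg τ hτ
    refine le_of_pow2 (C := C) (hy0 k) (by positivity) fun i => ?_
    refine (hpow i).trans ?_
    have h1 := hC (2 * (k * 2 ^ i))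
    have h2 : y (k * 2 ^ i) ≤ a Q (2 * (k * 2 ^ i)) := by
      rw [hy]
      simp only
      refine div_le_self (Nat.cast_nonneg _) ?_
      have : 1 ≤ k * 2 ^ i := Nat.mul_pos hk (by positivity)
      have h3 : (1 : ℝ) ≤ ((k * 2 ^ i : ℕ) : ℝ) := by exact_mod_cast this
      linarith
    refine h2.trans (h1.trans (le_of_eq ?_))
    rw [← pow_mul, mul_assoc]
  have hlim : Tendsto (fun τ : ℝ => ((1 + τ) * gr Q) ^ (2 * k)) (𝓝[>] 0)
      (𝓝 (((1 + 0) * gr Q) ^ (2 * k))) := by
    refine Tendsto.mono_left ?_ nhdsWithin_le_nhds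
    exact ((continuous_const.add continuous_id).mul continuous_const |>.pow _).tendsto 0
  have hfin : y k ≤ ((1 + 0) * gr Q) ^ (2 * k) := by
    refine ge_of_tendsto hlim ?_
    filter_upwards [self_mem_nhdsWithin] with τ hτ'
    exact hτ τ hτ'
  rw [add_zero, one_mul, hy] at hfin
  simp only at hfin
  have hk0 : (0 : ℝ) < k := by exact_mod_cast hk
  rw [div_le_iff₀ (by positivity)] at hfin
  push_cast
  nlinarith

/-- the error term -/
def err (Q : List Dir → Prop) (n : ℕ) : ℝ :=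
  √((Real.log n + Real.log (gr Q ^ n / pq Q n)) / n)

/-- the weight -/
def wu (g : ℝ) (n : ℕ) : ℝ := (1 / g) ^ n / ((n : ℝ) + 1) ^ 3

theorem wu_facts {g κ : ℝ} (hg : 0 < g) (hκ : 1 < κ) :
    (∀ n, 0 ≤ wu g n) ∧ (∀ n, wu g n ≤ (κ / g) ^ n) ∧
    (∀ n, 1 ≤ n → wu g (n + 2) ^ 2 ≤ wu g n * wu g (n + 4) * (1 + 0 / n)) := by
  refine ⟨fun n => ?_, fun n => ?_, fun n hn => ?_⟩
  · unfold wu
    positivity
  · unfold wu
    have h1 : (1 : ℝ) ≤ ((n : ℝ) + 1) ^ 3 := one_le_pow₀ (by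
      have : (0 : ℝ) ≤ n := Nat.cast_nonneg _
      linarith)
    refine (div_le_self (by positivity) h1).trans ?_
    exact pow_le_pow_left₀ (by positivity) (div_le_div_of_nonneg_right hκ.le hg.le) n
  · unfold wu
    rw [zero_div, add_zero, mul_one, div_pow, div_mul_div_comm, ← pow_mul, ← pow_add,
      show (n + 2) * 2 = n + (n + 4) by ring]
    refine div_le_div_of_nonneg_left (by positivity) (by positivity) ?_
    push_cast
    have h0 : (0 : ℝ) ≤ n := Nat.cast_nonneg _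
    calc ((n : ℝ) + 1) ^ 3 * ((n : ℝ) + 4 + 1) ^ 3 = (((n : ℝ) + 1) * (n + 4 + 1)) ^ 3 := by ring
      _ ≤ (((n : ℝ) + 2 + 1) ^ 2) ^ 3 := by
          refine pow_le_pow_left₀ (by positivity) ?_ 3
          nlinarith
      _ = _ := by ring

theorem card_univ' (D : Set Z3) (hD : ∀ p, p ∈ D) (Q : List Dir → Prop) (n : ℕ) :
    (((K Q n).filter (fun w => ∀ p ∈ path w, p ∈ D)).card : ℝ) = a Q n := by
  have : (K Q n).filter (fun w => ∀ p ∈ path w, p ∈ D) = K Q n := by
    rw [Finset.filter_eq_self]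
    intro w _ p _
    exact hD p
  rw [this]
  rfl

theorem Z_univ {Ω : Type} [MeasurableSpace Ω] (ν : Measure Ω) [IsProbabilityMeasure ν]
    (Q : List Dir → Prop) (n : ℕ) : Z ν (fun _ => Set.univ) Q n = a Q n := by
  unfold Z
  have h := fun _ : Ω => card_univ' Set.univ (fun p => Set.mem_univ p) Q n
  rw [integral_congr_ae (Filter.Eventually.of_forall h), integral_const, probReal_univ, one_smul]

theorem err_tendsto (Q : List Dir → Prop) (hQ : KClass Q) (hne : ∃ w, SAP w ∧ Q w)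
    (hc : CSum Q) : Tendsto (fun j : ℕ => Real.log (gr Q ^ (2 * j) / pq Q (2 * j)) / (2 * j))
      atTop (𝓝 0) := by
  obtain ⟨g1, -, g2⟩ := gr_bounds Q hQ hne
  have hg : 0 < gr Q := by linarith
  have h1 := (class_sum Q hQ hne hc).1
  have h2 := (Real.continuousAt_log hg.ne').tendsto.comp h1
  have h3 : Tendsto (fun j : ℕ => Real.log (gr Q) -
      Real.log ((pq Q (2 * j)) ^ (1 / (2 * j : ℝ)))) atTop (𝓝 (Real.log (gr Q) - Real.log (gr Q))) :=
    tendsto_const_nhds.sub h2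
  rw [sub_self] at h3
  refine h3.congr' ?_
  filter_upwards [class_pos Q hQ hne, eventually_gt_atTop 0] with j hj hj0
  have hjR : (0 : ℝ) < j := by exact_mod_cast hj0
  rw [Real.log_rpow hj, Real.log_div (by positivity) hj.ne', Real.log_pow]
  push_cast
  field_simp

theorem uniform (Q : List Dir → Prop) (hQ : KClass Q) (hne : ∃ w, SAP w ∧ Q w) (hc : CSum Q) :
    Tendsto (fun j : ℕ => err Q (2 * j)) atTop (𝓝 0) ∧
    ∃ (C : ℝ) (J : ℕ), 0 < C ∧ ∀ j : ℕ, J ≤ j → 0 < a Q (2 * j) ∧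
      ∀ (Ω : Type) [MeasurableSpace Ω] (ν : Measure Ω) [IsProbabilityMeasure ν] (D : Ω → Set Z3),
        (∀ p, MeasurableSet {ω | p ∈ D ω}) →
        ∀ Q' : List Dir → Prop, KClass Q' → (∀ w, Q' w → Q w) →
        |Z ν D Q' (2 * j + 2) / a Q (2 * j + 2) - Z ν D Q' (2 * j) / a Q (2 * j)| ≤
          C * err Q (2 * j) := by
  obtain ⟨g1, -, g2⟩ := gr_bounds Q hQ hne
  have hg : 0 < gr Q := by linarith
  have hlog : Tendsto (fun j : ℕ => Real.log ((2 * j : ℕ) : ℝ) / (2 * j)) atTop (𝓝 0) := by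
    have h1 : Tendsto (fun x : ℝ => Real.log x / x) atTop (𝓝 0) := by
      have := Real.tendsto_pow_log_div_mul_add_atTop 1 0 1 one_ne_zero
      simpa using this
    have h2 : Tendsto (fun j : ℕ => ((2 * j : ℕ) : ℝ)) atTop atTop :=
      tendsto_natCast_atTop_atTop.comp (tendsto_id.const_mul_atTop' (by norm_num))
    refine (h1.comp h2).congr fun j => ?_
    simp
  have herr := err_tendsto Q hQ hne hc
  refine ⟨?_, ?_⟩
  · have h1 := (hlog.add herr).sqrt
    rw [add_zero, Real.sqrt_zero] at h1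
    refine h1.congr fun j => ?_
    unfold err
    push_cast
    rw [add_div]
  -- the general theorem with the weight `wu`
  obtain ⟨C, κ, δ, hC, hκ, hδ, hmain⟩ := main Q hQ hne 0 le_rfl
  obtain ⟨w1, w2, w3⟩ := wu_facts hg hκ
  have hterm : ∀ n : ℕ, (a Q n : ℝ) * wu (gr Q) n ≤ 32 / ((n : ℝ) + 1) ^ 2 := by
    intro n
    have h1 := a_le Q hQ hne hc n
    have h0 : (0 : ℝ) ≤ n := Nat.cast_nonneg _
    have h2 := mul_le_mul_of_nonneg_right h1 (w1 n)
    refine h2.trans ?_
    unfold wu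
    have e : 32 * (n : ℝ) * gr Q ^ n * ((1 / gr Q) ^ n / ((n : ℝ) + 1) ^ 3) =
        32 * n / ((n : ℝ) + 1) ^ 3 := by
      rw [one_div, inv_pow]
      field_simp
    rw [e, div_le_div_iff₀ (by positivity) (by positivity)]
    nlinarith [sq_nonneg ((n : ℝ) + 1), pow_pos (show (0 : ℝ) < (n : ℝ) + 1 by linarith) 2]
  have hsummable : Summable (fun n : ℕ => (a Q n : ℝ) * wu (gr Q) n) := by
    refine Summable.of_nonneg_of_le (fun n => mul_nonneg (Nat.cast_nonneg _) (w1 n)) hterm ?_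
    have h1 := (Real.summable_one_div_nat_pow (p := 2)).2 (by norm_num)
    have h2 := (summable_nat_add_iff 1).2 h1
    refine (h2.mul_left 32).congr fun n => ?_
    push_cast
    ring
  obtain ⟨T, hT⟩ := hsummable
  have hT0 : 0 < T := by
    obtain ⟨w, hw1, hw2⟩ := hne
    have h1 : 0 < (a Q w.length : ℝ) := by
      unfold a
      have : w ∈ K Q w.length := mem_K.2 ⟨rfl, hw1, hw2⟩
      exact_mod_cast card_pos.2 ⟨w, this⟩
    have h2 : 0 < (a Q w.length : ℝ) * wu (gr Q) w.length := by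
      refine mul_pos h1 ?_
      unfold wu
      positivity
    refine lt_of_lt_of_le h2 ?_
    exact le_hasSum hT _ fun n _ => mul_nonneg (Nat.cast_nonneg _) (w1 n)
  obtain ⟨S, hS⟩ : ∃ S, S = C * (1 + max 0 (Real.log (1 / T))) := ⟨_, rfl⟩
  have hpos := class_pos Q hQ hne
  -- large lengths
  have hu : ∀ n : ℕ, 1 ≤ n → 0 < pq Q n → -Real.log 16 ≤ Real.log (gr Q ^ n / pq Q n) := by
    intro n hn hp
    have hn0 : (0 : ℝ) < n := by exact_mod_cast hn
    have h1 := a_le Q hQ hne hc n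
    have h2 : pq Q n ≤ 16 * gr Q ^ n := by
      unfold pq
      rw [div_le_iff₀ (by positivity)]
      linarith
    rw [← Real.log_inv]
    refine Real.log_le_log (by norm_num) ?_
    rw [le_div_iff₀ hp]
    linarith
  have hsm : ∀ᶠ j : ℕ in atTop, 1 + 4 * Real.log 16 + |Real.log T| + 3 + 3 * Real.log 2 ≤
      2 * Real.log ((2 * j : ℕ) : ℝ) := by
    have h1 : Tendsto (fun j : ℕ => Real.log ((2 * j : ℕ) : ℝ)) atTop atTop :=
      Real.tendsto_log_atTop.comp
        (tendsto_natCast_atTop_atTop.comp (tendsto_id.const_mul_atTop' (by norm_num)))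
    filter_upwards [h1.eventually_ge_atTop
      ((1 + 4 * Real.log 16 + |Real.log T| + 3 + 3 * Real.log 2) / 2)] with j hj
    linarith
  have hlarge : ∀ᶠ j : ℕ in atTop, S ≤ ((2 * j : ℕ) : ℝ) := by
    have h2 : Tendsto (fun j : ℕ => ((2 * j : ℕ) : ℝ)) atTop atTop :=
      tendsto_natCast_atTop_atTop.comp (tendsto_id.const_mul_atTop' (by norm_num))
    exact h2.eventually_ge_atTop S
  have hsum0 : Tendsto (fun j : ℕ => Real.log ((2 * j : ℕ) : ℝ) / (2 * j) +
      Real.log (gr Q ^ (2 * j) / pq Q (2 * j)) / (2 * j)) atTop (𝓝 (0 + 0)) := hlog.add herr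
  rw [add_zero] at hsum0
  have hsmall := hsum0.eventually_le_const (show (0 : ℝ) < δ / 5 by linarith)
  obtain ⟨J, hJ⟩ := eventually_atTop.1 (hpos.and (hsm.and (hlarge.and (hsmall.and
    (eventually_ge_atTop 1)))))
  refine ⟨C * √5, J, by positivity, fun j hj => ?_⟩
  obtain ⟨p1, p2, p3, p4, p5⟩ := hJ j hj
  have hjR : (1 : ℝ) ≤ j := by exact_mod_cast p5
  have ha : 0 < (a Q (2 * j) : ℝ) := p1.trans_le (GEN.pn_le_a Q j (by omega))
  refine ⟨by exact_mod_cast ha, ?_⟩
  intro Ω _ ν _ D hD Q' hQ' hsub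
  obtain ⟨m, hm⟩ : ∃ m, m = 2 * j := ⟨_, rfl⟩
  rw [← hm] at p1 p2 p3 p4 ha ⊢
  have hm0 : (0 : ℝ) < m := by
    have : 0 < m := by omega
    exact_mod_cast this
  have hmR : (1 : ℝ) ≤ m := by
    have : 1 ≤ m := by omega
    exact_mod_cast this
  have hZ : (fun n => Z ν (fun _ => Set.univ) Q n * wu (gr Q) n) =
      fun n : ℕ => (a Q n : ℝ) * wu (gr Q) n := by
    funext n
    rw [Z_univ]
  obtain ⟨-, -, a3⟩ := hmain Ω ν (fun _ => Set.univ) (fun _ => by simp) (wu (gr Q)) w1 w2 w3 T hT0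
    (by rw [hZ]; exact hT) m (by rw [← hS]; exact p3)
  -- the logarithm of the probability
  obtain ⟨u, hu'⟩ : ∃ u, u = Real.log (gr Q ^ m / pq Q m) := ⟨_, rfl⟩
  have hul := hu m (by omega) p1
  rw [← hu'] at hul
  have hPeq : Pq ν (wu (gr Q)) T (fun _ => Set.univ) Q m = (a Q m : ℝ) * wu (gr Q) m / T := by
    unfold Pq
    rw [Z_univ]
  have hPpos : 0 < (a Q m : ℝ) * wu (gr Q) m / T := by
    have : 0 < wu (gr Q) m := by unfold wu; positivity
    positivity
  have hapq : (a Q m : ℝ) = pq Q m * (2 * m) := by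
    unfold pq
    field_simp
  have hlogP : Real.log (1 / ((a Q m : ℝ) * wu (gr Q) m / T)) =
      u - Real.log (2 * m) + 3 * Real.log (m + 1) + Real.log T := by
    have e : 1 / ((a Q m : ℝ) * wu (gr Q) m / T) =
        (gr Q ^ m / pq Q m) / (2 * m) * ((m : ℝ) + 1) ^ 3 * T := by
      unfold wu
      rw [hapq, one_div (gr Q), inv_pow]
      field_simp
    have h1 : gr Q ^ m / pq Q m ≠ 0 := by positivity
    rw [e, Real.log_mul (by positivity) hT0.ne', Real.log_mul (by positivity) (by positivity),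
      Real.log_div h1 (by positivity), Real.log_pow, hu']
    push_cast
    ring
  have hlm1 : Real.log (m + 1) ≤ Real.log 2 + Real.log m := by
    rw [← Real.log_mul (by norm_num) hm0.ne']
    exact Real.log_le_log (by positivity) (by linarith)
  have hl2m : Real.log m ≤ Real.log (2 * m) := Real.log_le_log hm0 (by linarith)
  have hlm0 : 0 ≤ Real.log m := Real.log_nonneg hmR
  have hlT := le_abs_self (Real.log T)
  have hlT2 := neg_abs_le (Real.log T)
  have hbound : 1 + Real.log (1 / ((a Q m : ℝ) * wu (gr Q) m / T)) ≤ 5 * (Real.log m + u) := by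
    rw [hlogP]
    linarith
  have hexp : Real.exp (-δ * m) ≤ Pq ν (wu (gr Q)) T (fun _ => Set.univ) Q m := by
    rw [hPeq]
    have h1 : Real.log (1 / ((a Q m : ℝ) * wu (gr Q) m / T)) ≤ δ * m := by
      have h2 : (Real.log m + u) / m ≤ δ / 5 := by
        have h3 : Real.log ((m : ℕ) : ℝ) / (2 * j) + Real.log (gr Q ^ m / pq Q m) / (2 * j) =
            (Real.log m + u) / m := by
          rw [hu', hm]
          push_cast
          ring
        rw [← h3]
        exact p4
      rw [div_le_iff₀ hm0] at h2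
      linarith
    rw [one_div, Real.log_inv] at h1
    rw [← Real.le_log_iff_exp_le hPpos]
    linarith
  obtain ⟨-, b2⟩ := a3 hexp
  have b3 := b2 Q' D hQ' hsub hD (fun _ => Set.subset_univ _)
  rw [Z_univ, Z_univ, hPeq] at b3
  refine b3.trans ?_
  rw [mul_assoc]
  refine mul_le_mul_of_nonneg_left ?_ hC.le
  unfold err
  rw [← hu', ← Real.sqrt_mul (by norm_num)]
  refine Real.sqrt_le_sqrt ?_
  rw [← mul_div_assoc]
  exact div_le_div_of_nonneg_right hbound hm0.le

end

end Q78.UG.Kn
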